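import Pool.Agent.H70.WS.Newton

/-!
# The choice of the coefficients
-/

set_option autoImplicit false

namespace Pool.Agent.H70.WS

open Finset

lemma round (b : ℤ) (M : ℕ) (hM : 0 < M) (v : ℝ) : ∃ w : ℤ, (M : ℤ) ∣ w - b ∧ |(w : ℝ) - v| ≤ M := by
  have hM' : (0 : ℝ) < M := by exact_mod_cast hM
  refine ⟨b + M * ⌊(v - b) / M⌋, ⟨⌊(v - b) / M⌋, by ring⟩, ?_⟩
  have h1 := Int.floor_le ((v - b) / M)
  have h2 := Int.lt_floor_add_one ((v - b) / M)
  rw [le_div_iff₀ hM'] at h1
  rw [div_lt_iff₀ hM'] at h2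
  push_cast
  rw [abs_le]
  constructor <;> nlinarith

/-- the expansion of a sum of `k`-th powers -/
lemma sum_pow {R : Type} [CommRing R] {s : ℕ} (z : Fin s → R) (a : R) (k : ℕ) : ∑ i, (a + z i) ^ k =
    s * a ^ k + ∑ i ∈ range k, (k.choose (i + 1) : R) * a ^ (k - (i + 1)) * nw (es z) (i + 1) := by
  have h1 : ∀ l : Fin s, (a + z l) ^ k = a ^ k + ∑ i ∈ range k, (k.choose (i + 1) : R) * a ^ (k - (i + 1)) *
      z l ^ (i + 1) := by
    intro l
    rw [add_comm a, add_pow, Finset.sum_range_succ']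
    rw [pow_zero, Nat.sub_zero, Nat.choose_zero_right, add_comm]
    congr 1
    · simp
    · exact Finset.sum_congr rfl fun i _ => by ring
  rw [Finset.sum_congr rfl fun l _ => h1 l, Finset.sum_add_distrib, Finset.sum_comm]
  congr 1
  · simp
  · refine Finset.sum_congr rfl fun i _ => ?_
    rw [← Finset.mul_sum, nw_es z (i + 1) (Nat.succ_pos i)]

/-- the error after `j` steps -/
noncomputable def rem (k : ℕ) (a : ℕ) (p0 : ℕ → ℝ) (e : ℕ → ℤ) (j : ℕ) : ℝ :=
  ∑ i ∈ range j, (k.choose (i + 1) : ℝ) * (a : ℝ) ^ (k - (i + 1)) * ((nw e (i + 1) : ℤ) - p0 (i + 1))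

lemma rem_congr (k a : ℕ) (p0 : ℕ → ℝ) (e e' : ℕ → ℤ) (j : ℕ) (h : ∀ i, 1 ≤ i → i ≤ j → e i = e' i) :
    rem k a p0 e j = rem k a p0 e' j := by
  unfold rem
  refine Finset.sum_congr rfl fun i hi => ?_
  rw [Finset.mem_range] at hi
  rw [nw_congr e e' (i + 1) fun l h1 h2 => h l h1 (by omega)]

variable {k m a : ℕ} (hk : 0 < k) (hm : 0 < m) (ha : 0 < a) (b : ℕ → ℤ) (p0 : ℕ → ℝ)
include hk hm ha

lemma steps (j : ℕ) (hj : j < k) : ∃ e : ℕ → ℤ, (∀ i, 1 ≤ i → i ≤ j → ((m * k : ℕ) : ℤ) ∣ e i - b i) ∧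
    ∀ i, 1 ≤ i → i ≤ j → |rem k a p0 e i| ≤ (k.choose i : ℝ) * (a : ℝ) ^ (k - i) * (i * (m * k : ℕ)) := by
  induction j with
  | zero => exact ⟨b, fun i h1 h2 => by omega, fun i h1 h2 => by omega⟩
  | succ j ih =>
    obtain ⟨e, h1, h2⟩ := ih (by omega)
    set B : ℝ := (k.choose (j + 1) : ℝ) * (a : ℝ) ^ (k - (j + 1)) with hB
    have hB0 : 0 < B := by
      have c1 : 0 < k.choose (j + 1) := Nat.choose_pos (by omega)
      have : (0 : ℝ) < (k.choose (j + 1) : ℝ) := by exact_mod_cast c1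
      have : (0 : ℝ) < a := by exact_mod_cast ha
      positivity
    obtain ⟨w, hw1, hw2⟩ := round (b (j + 1)) (m * k) (Nat.mul_pos hm hk)
      ((-1) ^ j / (j + 1) * (p0 (j + 1) - ((gw e j : ℤ) : ℝ) - rem k a p0 e j / B))
    set v : ℝ := (-1) ^ j / (j + 1) * (p0 (j + 1) - ((gw e j : ℤ) : ℝ) - rem k a p0 e j / B) with hv
    set e' := Function.update e (j + 1) w with he'
    have hee : ∀ i, i ≤ j → e' i = e i := fun i hi => by
      rw [he', Function.update_of_ne (by omega)]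
    have hew : e' (j + 1) = w := by rw [he', Function.update_self]
    refine ⟨e', fun i hi1 hi2 => ?_, fun i hi1 hi2 => ?_⟩
    · rcases Nat.lt_or_ge j i with h | h
      · have : i = j + 1 := by omega
        subst this
        rw [hew]
        exact hw1
      · rw [hee i h]
        exact h1 i hi1 h
    · rcases Nat.lt_or_ge j i with h | h
      · have : i = j + 1 := by omega
        subst this
        have e1 : rem k a p0 e' (j + 1) = rem k a p0 e j + B * (((nw e' (j + 1) : ℤ) : ℝ) - p0 (j + 1)) := by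
          have : rem k a p0 e' (j + 1) = rem k a p0 e' j + B * (((nw e' (j + 1) : ℤ) : ℝ) - p0 (j + 1)) := by
            unfold rem
            rw [Finset.sum_range_succ]
          rw [this, rem_congr k a p0 e' e j fun l _ h => hee l h]
        have e2 : nw e' (j + 1) = (-1) ^ j * (j + 1) * w + gw e j := by
          rw [nw_succ, hew, gw_congr e' e j fun l _ h => hee l h]
        have e3 : ((-1 : ℝ) ^ j) * (-1) ^ j = 1 := by
          rw [← mul_pow]
          simp
        have e4 : ((j : ℝ) + 1) ≠ 0 := by positivity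
        have e5 : (-1 : ℝ) ^ j * (j + 1) * v = p0 (j + 1) - ((gw e j : ℤ) : ℝ) - rem k a p0 e j / B := by
          rw [hv]
          calc (-1 : ℝ) ^ j * (j + 1) * ((-1) ^ j / (j + 1) * (p0 (j + 1) - ((gw e j : ℤ) : ℝ) - rem k a p0 e j / B)) =
              ((-1) ^ j * (-1) ^ j) * ((j + 1) / (j + 1)) * (p0 (j + 1) - ((gw e j : ℤ) : ℝ) -
                rem k a p0 e j / B) := by ring
            _ = _ := by rw [e3, div_self e4]; ring
        have e6 : rem k a p0 e' (j + 1) = B * ((-1) ^ j * (j + 1) * (w - v)) := by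
          rw [e1, e2, mul_sub, mul_sub _ (w : ℝ) v, e5]
          push_cast
          field_simp
          ring
        rw [e6, abs_mul, abs_of_pos hB0, abs_mul, abs_mul, abs_pow, abs_neg, abs_one, one_pow, one_mul]
        refine mul_le_mul_of_nonneg_left ?_ hB0.le
        have e7 : |(j : ℝ) + 1| = ((j + 1 : ℕ) : ℝ) := by
          rw [abs_of_nonneg (by positivity)]
          push_cast
          ring
        rw [e7]
        exact mul_le_mul_of_nonneg_left hw2 (Nat.cast_nonneg _)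
      · rw [rem_congr k a p0 e' e i fun l _ h' => hee l (by omega)]
        exact h2 i hi1 h

/-- The choice of the coefficients. -/
theorem choose {s : ℕ} (hs : k ≤ s) (y : Fin s → ℤ) (n : ℤ) (hy : ((m * k : ℕ) : ℤ) ∣ n - ∑ i, y i ^ k)
    (hp0 : (s : ℝ) * (a : ℝ) ^ k + ∑ i ∈ range k, (k.choose (i + 1) : ℝ) * (a : ℝ) ^ (k - (i + 1)) * p0 (i + 1) = n)
    (t : ℕ → ℝ) :
    ∃ e : ℕ → ℤ, e 0 = 1 ∧ (∀ j, s < j → e j = 0) ∧
      (∀ j, j ≤ s → (m : ℤ) ∣ e j - es (fun i => y i - (a : ℤ)) j) ∧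
      (s : ℤ) * (a : ℤ) ^ k + ∑ i ∈ range k, (k.choose (i + 1) : ℤ) * (a : ℤ) ^ (k - (i + 1)) * nw e (i + 1) = n ∧
      (∀ j, 1 ≤ j → j ≤ k → |((nw e j : ℤ) : ℝ) - p0 j| ≤ j * (m * k : ℕ) + (if j = 1 then 0 else
        (a : ℝ) * k ^ 2 * (m * k : ℕ))) ∧
      ∀ j, k < j → j ≤ s → |(e j : ℝ) - t j| ≤ (m * k : ℕ) := by
  set b : ℕ → ℤ := es fun i => y i - (a : ℤ) with hb
  obtain ⟨k', rfl⟩ : ∃ l, k = l + 1 := ⟨k - 1, by omega⟩
  obtain ⟨e, h1, h2⟩ := steps hk hm ha b p0 k' (Nat.lt_succ_self _)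
  set M := m * (k' + 1) with hM
  -- the last step
  set nk : ℤ := n - (s : ℤ) * (a : ℤ) ^ (k' + 1) -
    ∑ i ∈ range k', ((k' + 1).choose (i + 1) : ℤ) * (a : ℤ) ^ (k' + 1 - (i + 1)) * nw e (i + 1) with hnk
  have hdvd : (M : ℤ) ∣ (nk - gw e k') - (-1) ^ k' * (k' + 1) * b (k' + 1) := by
    rw [← ZMod.intCast_zmod_eq_zero_iff_dvd]
    have c0 : ∀ i, 1 ≤ i → i ≤ k' → (Int.castRingHom (ZMod M)) (e i) = (Int.castRingHom (ZMod M)) (b i) := by
      intro i hi1 hi2
      have := h1 i hi1 hi2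
      rw [← ZMod.intCast_zmod_eq_zero_iff_dvd, Int.cast_sub, sub_eq_zero] at this
      simpa using this
    have c1 : ∀ i, i ≤ k' → ((nw e i : ℤ) : ZMod M) = ((nw b i : ℤ) : ZMod M) := by
      intro i hi
      have := nw_congr (fun l => (Int.castRingHom (ZMod M)) (e l)) (fun l => (Int.castRingHom (ZMod M)) (b l)) i
        fun l hl1 hl2 => c0 l hl1 (by omega)
      rw [nw_map, nw_map] at this
      simpa using this
    have c2 : ((gw e k' : ℤ) : ZMod M) = ((gw b k' : ℤ) : ZMod M) := by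
      have := gw_congr (fun l => (Int.castRingHom (ZMod M)) (e l)) (fun l => (Int.castRingHom (ZMod M)) (b l)) k'
        fun l hl1 hl2 => c0 l hl1 (by omega)
      rw [gw_map, gw_map] at this
      simpa using this
    have c3 : ((n : ℤ) : ZMod M) = ((∑ i, y i ^ (k' + 1) : ℤ) : ZMod M) := by
      rw [← ZMod.intCast_zmod_eq_zero_iff_dvd, Int.cast_sub, sub_eq_zero] at hy
      exact hy
    have c4 : ∑ i, y i ^ (k' + 1) = (s : ℤ) * (a : ℤ) ^ (k' + 1) + ∑ i ∈ range (k' + 1),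
        ((k' + 1).choose (i + 1) : ℤ) * (a : ℤ) ^ (k' + 1 - (i + 1)) * nw b (i + 1) := by
      rw [hb, ← sum_pow (fun i => y i - (a : ℤ)) (a : ℤ) (k' + 1)]
      exact Finset.sum_congr rfl fun i _ => by ring
    rw [Finset.sum_range_succ, Nat.choose_self, Nat.sub_self, pow_zero, Nat.cast_one, one_mul, one_mul,
      nw_succ b k'] at c4
    have c5 : ((∑ i ∈ range k', ((k' + 1).choose (i + 1) : ℤ) * (a : ℤ) ^ (k' + 1 - (i + 1)) * nw e (i + 1) : ℤ) :
        ZMod M) = ((∑ i ∈ range k', ((k' + 1).choose (i + 1) : ℤ) * (a : ℤ) ^ (k' + 1 - (i + 1)) * nw b (i + 1) : ℤ) :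
        ZMod M) := by
      rw [Int.cast_sum, Int.cast_sum]
      refine Finset.sum_congr rfl fun i hi => ?_
      rw [Finset.mem_range] at hi
      rw [Int.cast_mul, Int.cast_mul _ (nw b (i + 1)), c1 (i + 1) (by omega)]
    rw [Int.cast_sub, Int.cast_sub, hnk, Int.cast_sub, Int.cast_sub, c3, c5, c2, c4]
    push_cast
    ring
  obtain ⟨u, hu⟩ := hdvd
  set w : ℤ := b (k' + 1) + (-1) ^ k' * (m * u) with hw
  have hww : (-1) ^ k' * (k' + 1) * w + gw e k' = nk := by
    have e3 : ((-1 : ℤ) ^ k') * (-1) ^ k' = 1 := by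
      rw [← mul_pow]
      simp
    rw [hM] at hu
    push_cast at hu
    rw [hw]
    linear_combination -hu + (k' + 1) * (m * u) * e3
  -- the remaining coefficients
  have h3 := fun j => round (b j) M (Nat.mul_pos hm hk) (t j)
  choose r hr1 hr2 using h3
  set f : ℕ → ℤ := fun j => if j = 0 then 1 else if j ≤ k' then e j else if j = k' + 1 then w else
    if j ≤ s then r j else 0 with hf
  have hfe : ∀ j, 1 ≤ j → j ≤ k' → f j = e j := fun j hj1 hj2 => by
    rw [hf]
    dsimp only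
    rw [if_neg (by omega), if_pos hj2]
  have hfw : f (k' + 1) = w := by
    rw [hf]
    dsimp only
    rw [if_neg (by omega), if_neg (by omega), if_pos rfl]
  have hexact : (s : ℤ) * (a : ℤ) ^ (k' + 1) + ∑ i ∈ range (k' + 1), ((k' + 1).choose (i + 1) : ℤ) *
      (a : ℤ) ^ (k' + 1 - (i + 1)) * nw f (i + 1) = n := by
    rw [Finset.sum_range_succ, Nat.choose_self, Nat.sub_self, pow_zero, Nat.cast_one, one_mul, one_mul,
      nw_succ f k', hfw, gw_congr f e k' fun l hl1 hl2 => hfe l hl1 hl2, hww, hnk]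
    have : ∑ i ∈ range k', ((k' + 1).choose (i + 1) : ℤ) * (a : ℤ) ^ (k' + 1 - (i + 1)) * nw f (i + 1) =
        ∑ i ∈ range k', ((k' + 1).choose (i + 1) : ℤ) * (a : ℤ) ^ (k' + 1 - (i + 1)) * nw e (i + 1) := by
      refine Finset.sum_congr rfl fun i hi => ?_
      rw [Finset.mem_range] at hi
      rw [nw_congr f e (i + 1) fun l hl1 hl2 => hfe l hl1 (by omega)]
    rw [this]
    ring
  refine ⟨f, ?_, ?_, ?_, hexact, ?_, ?_⟩
  · rw [hf]
    dsimp only
    rw [if_pos rfl]
  · intro j hj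
    rw [hf]
    dsimp only
    rw [if_neg (by omega), if_neg (by omega), if_neg (by omega), if_neg (by omega)]
  · intro j hj
    have hmM : (m : ℤ) ∣ (M : ℤ) := by
      rw [hM]
      exact ⟨(k' + 1 : ℕ), by push_cast; ring⟩
    rcases Nat.eq_zero_or_pos j with rfl | hj0
    · rw [hf]
      dsimp only
      rw [if_pos rfl, hb, es_zero, sub_self]
      exact dvd_zero _
    · rcases Nat.lt_or_ge k' j with h | h
      · rcases Nat.lt_or_ge (k' + 1) j with h' | h'
        · rw [hf]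
          dsimp only
          rw [if_neg (by omega), if_neg (by omega), if_neg (by omega), if_pos hj]
          exact hmM.trans (hr1 j)
        · have : j = k' + 1 := by omega
          subst this
          rw [hfw, hw]
          exact ⟨(-1) ^ k' * u, by ring⟩
      · rw [hfe j hj0 h]
        exact hmM.trans (h1 j hj0 h)
  · -- the bounds
    have hrem : ∀ i, 1 ≤ i → i ≤ k' + 1 → |rem (k' + 1) a p0 f i| ≤
        ((k' + 1).choose i : ℝ) * (a : ℝ) ^ (k' + 1 - i) * (i * (M : ℕ)) := by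
      intro i hi1 hi2
      rcases Nat.lt_or_ge k' i with h | h
      · have : i = k' + 1 := by omega
        subst this
        have h0 : rem (k' + 1) a p0 f (k' + 1) = 0 := by
          have hex : (s : ℝ) * (a : ℝ) ^ (k' + 1) + ∑ i ∈ range (k' + 1), ((k' + 1).choose (i + 1) : ℝ) *
              (a : ℝ) ^ (k' + 1 - (i + 1)) * ((nw f (i + 1) : ℤ) : ℝ) = n := by exact_mod_cast hexact
          unfold rem
          simp only [mul_sub, Finset.sum_sub_distrib]
          linarith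
        rw [h0, abs_zero]
        positivity
      · rw [rem_congr (k' + 1) a p0 f e i fun l hl1 hl2 => hfe l hl1 (by omega)]
        exact h2 i hi1 h
    intro j hj1 hj2
    obtain ⟨j', rfl⟩ : ∃ l, j = l + 1 := ⟨j - 1, by omega⟩
    set B : ℝ := ((k' + 1).choose (j' + 1) : ℝ) * (a : ℝ) ^ (k' + 1 - (j' + 1)) with hB
    have ha' : (0 : ℝ) < a := by exact_mod_cast ha
    have hB0 : 0 < B := by
      have c1 : 0 < (k' + 1).choose (j' + 1) := Nat.choose_pos (by omega)
      have : (0 : ℝ) < ((k' + 1).choose (j' + 1) : ℝ) := by exact_mod_cast c1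
      positivity
    have e1 : B * (((nw f (j' + 1) : ℤ) : ℝ) - p0 (j' + 1)) =
        rem (k' + 1) a p0 f (j' + 1) - rem (k' + 1) a p0 f j' := by
      unfold rem
      rw [Finset.sum_range_succ]
      ring
    have e2 := hrem (j' + 1) (by omega) hj2
    have e3 : |rem (k' + 1) a p0 f j'| ≤ B * (if j' + 1 = 1 then 0 else (a : ℝ) * ((k' + 1 : ℕ) : ℝ) ^ 2 * (M : ℕ)) := by
      by_cases h : j' = 0
      · subst h
        rw [if_pos rfl, mul_zero]
        unfold rem
        simp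
      · rw [if_neg (by omega)]
        refine (hrem j' (by omega) (by omega)).trans ?_
        have c1 : ((k' + 1).choose j' : ℝ) ≤ ((k' + 1 : ℕ) : ℝ) * ((k' + 1).choose (j' + 1) : ℝ) := by
          have d1 := Nat.choose_succ_right_eq (k' + 1) j'
          have d2 : (k' + 1).choose j' ≤ (k' + 1).choose j' * (k' + 1 - j') :=
            Nat.le_mul_of_pos_right _ (by omega)
          have d3 : (k' + 1).choose (j' + 1) * (j' + 1) ≤ (k' + 1).choose (j' + 1) * (k' + 1) :=
            Nat.mul_le_mul_left _ hj2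
          have d4 : (k' + 1).choose j' ≤ (k' + 1) * (k' + 1).choose (j' + 1) := by
            rw [mul_comm (k' + 1)]
            omega
          exact_mod_cast d4
        have c2 : (a : ℝ) ^ (k' + 1 - j') = a * (a : ℝ) ^ (k' + 1 - (j' + 1)) := by
          rw [← pow_succ']
          congr 1
          omega
        have c3 : (j' : ℝ) ≤ ((k' + 1 : ℕ) : ℝ) := by exact_mod_cast (by omega : j' ≤ k' + 1)
        rw [c2, hB]
        have c4 : (0 : ℝ) ≤ ((k' + 1).choose (j' + 1) : ℝ) := Nat.cast_nonneg _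
        have c5 : (0 : ℝ) ≤ (M : ℝ) := Nat.cast_nonneg _
        have c6 : (0 : ℝ) ≤ ((k' + 1 : ℕ) : ℝ) := Nat.cast_nonneg _
        calc ((k' + 1).choose j' : ℝ) * (a * (a : ℝ) ^ (k' + 1 - (j' + 1))) * (j' * (M : ℝ))
            ≤ (((k' + 1 : ℕ) : ℝ) * ((k' + 1).choose (j' + 1) : ℝ)) * (a * (a : ℝ) ^ (k' + 1 - (j' + 1))) *
                (((k' + 1 : ℕ) : ℝ) * (M : ℝ)) := by
              gcongr
          _ = _ := by ring
    have e4 : B * |((nw f (j' + 1) : ℤ) : ℝ) - p0 (j' + 1)| ≤ B * (((j' + 1 : ℕ) : ℝ) * (M : ℕ) +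
        (if j' + 1 = 1 then 0 else (a : ℝ) * ((k' + 1 : ℕ) : ℝ) ^ 2 * (M : ℕ))) := by
      rw [mul_add, ← abs_of_pos hB0, ← abs_mul, abs_of_pos hB0, e1]
      refine (abs_sub _ _).trans (add_le_add e2 e3)
    exact le_of_mul_le_mul_left e4 hB0
  · intro j hj1 hj2
    rw [hf]
    dsimp only
    rw [if_neg (by omega), if_neg (by omega), if_neg (by omega), if_pos hj2]
    exact hr2 j

end Pool.Agent.H70.WS
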