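import Mathlib

/-!
# The interval cannot be shorter
-/

set_option autoImplicit false

namespace Pool.Agent.H70.WS

open Finset

lemma taylor (μ w : ℝ) (hμ : 0 < μ) (hw1 : -μ ≤ w) (hw2 : w ≤ μ) (k : ℕ) :
    μ ^ (k + 2) + (k + 2 : ℕ) * μ ^ (k + 1) * w ≤ (μ + w) ^ (k + 2) ∧
      (μ + w) ^ (k + 2) ≤ μ ^ (k + 2) + (k + 2 : ℕ) * μ ^ (k + 1) * w + 4 ^ (k + 2) * w ^ 2 * μ ^ k := by
  constructor
  · have h := one_add_mul_le_pow (a := w / μ) (by rw [le_div_iff₀ hμ]; linarith) (k + 2)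
    have h1 : (μ + w) ^ (k + 2) = μ ^ (k + 2) * (1 + w / μ) ^ (k + 2) := by
      rw [← mul_pow]
      congr 1
      field_simp
    rw [h1]
    have h2 : μ ^ (k + 2) + (k + 2 : ℕ) * μ ^ (k + 1) * w = μ ^ (k + 2) * (1 + (k + 2 : ℕ) * (w / μ)) := by
      rw [pow_succ]
      field_simp
    rw [h2]
    exact mul_le_mul_of_nonneg_left h (by positivity)
  · induction k with
    | zero =>
      push_cast
      nlinarith [sq_nonneg w]
    | succ k ih =>
      have h0 : 0 ≤ μ + w := by linarith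
      have h1 := mul_le_mul_of_nonneg_left ih h0
      have h2 : (μ + w) ^ (k + 1 + 2) = (μ + w) * (μ + w) ^ (k + 2) := by ring
      rw [h2]
      refine h1.trans ?_
      have h3 : w * w ^ 2 ≤ μ * w ^ 2 := mul_le_mul_of_nonneg_right hw2 (sq_nonneg w)
      have h4 : (0 : ℝ) ≤ μ ^ k := by positivity
      have h5 : (0 : ℝ) ≤ w ^ 2 * μ ^ (k + 1) := by positivity
      have h6 : ((k + 2 : ℕ) : ℝ) ≤ 4 ^ (k + 2) := by
        have : k + 2 < 4 ^ (k + 2) := Nat.lt_pow_self (by norm_num)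
        exact_mod_cast this.le
      have h7 : w * w ^ 2 * (4 ^ (k + 2) * μ ^ k) ≤ μ * w ^ 2 * (4 ^ (k + 2) * μ ^ k) :=
        mul_le_mul_of_nonneg_right h3 (by positivity)
      have h8 : ((k + 2 : ℕ) : ℝ) * (w ^ 2 * μ ^ (k + 1)) ≤ 4 ^ (k + 2) * (w ^ 2 * μ ^ (k + 1)) :=
        mul_le_mul_of_nonneg_right h6 h5
      have e1 : (μ + w) * (μ ^ (k + 2) + (k + 2 : ℕ) * μ ^ (k + 1) * w + 4 ^ (k + 2) * w ^ 2 * μ ^ k) =
          μ ^ (k + 1 + 2) + (k + 1 + 2 : ℕ) * μ ^ (k + 1 + 1) * w + 4 ^ (k + 2) * (w ^ 2 * μ ^ (k + 1)) +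
            ((k + 2 : ℕ) : ℝ) * (w ^ 2 * μ ^ (k + 1)) + w * w ^ 2 * (4 ^ (k + 2) * μ ^ k) := by
        push_cast
        ring
      have e2 : (4 : ℝ) ^ (k + 1 + 2) * w ^ 2 * μ ^ (k + 1) = 4 * (4 ^ (k + 2) * (w ^ 2 * μ ^ (k + 1))) := by ring
      have e3 : μ * w ^ 2 * (4 ^ (k + 2) * μ ^ k) = 4 ^ (k + 2) * (w ^ 2 * μ ^ (k + 1)) := by ring
      rw [e1, e2]
      have h9 : (0 : ℝ) ≤ 4 ^ (k + 2) * (w ^ 2 * μ ^ (k + 1)) := by positivity
      linarith

theorem optimal (s k : ℕ) (hs : 0 < s) : ∃ c : ℝ, 0 < c ∧ ∀ N : ℕ, ∃ n : ℕ, N ≤ n ∧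
    ∀ (A : ℝ) (x : Fin s → ℝ), 0 < A → (∀ i, A ≤ x i ∧ x i ≤ A + c * √A) → (∃ t : ℤ, ∑ i, x i = t) →
      ∑ i, x i ^ (k + 2) ≠ n := by
  have hs' : (0 : ℝ) < s := by exact_mod_cast hs
  have hs1 : (1 : ℝ) ≤ s := by exact_mod_cast hs
  set c : ℝ := 1 / (2 ^ (k + 3) * s) with hc
  have hc0 : 0 < c := by positivity
  have hc1 : c ≤ 1 := by
    rw [hc, div_le_one (by positivity)]
    have : (1 : ℝ) ≤ 2 ^ (k + 3) := one_le_pow₀ (by norm_num)
    nlinarith
  have hcs : s * 4 ^ (k + 2) * c ^ 2 < 1 := by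
    have e1 : (4 : ℝ) ^ (k + 2) = (2 ^ (k + 2)) ^ 2 := by
      rw [← pow_mul, mul_comm, pow_mul]
      norm_num
    have e2 : s * 4 ^ (k + 2) * c ^ 2 = 1 / (4 * s) := by
      rw [e1, hc]
      have : (2 : ℝ) ^ (k + 3) = 2 * 2 ^ (k + 2) := by ring
      rw [this]
      field_simp
      ring
    rw [e2, div_lt_one (by positivity)]
    linarith
  refine ⟨c, hc0, fun N => ?_⟩
  set T : ℕ := s * (N + s ^ (k + 3) + 1) with hT
  set u : ℝ := ((N + s ^ (k + 3) + 1 : ℕ) : ℝ) with hu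
  have hu1 : 1 ≤ u := by
    rw [hu]
    exact_mod_cast Nat.le_add_left 1 _
  set n : ℕ := ⌈(s : ℝ) * u ^ (k + 2) + u ^ (k + 1)⌉₊ with hn
  have hn1 : (s : ℝ) * u ^ (k + 2) + u ^ (k + 1) ≤ n := Nat.le_ceil _
  have hn2 : (n : ℝ) < s * u ^ (k + 2) + u ^ (k + 1) + 1 := Nat.ceil_lt_add_one (by positivity)
  have hun : u ≤ n := by
    have h1 : u ≤ u ^ (k + 1) := le_self_pow₀ hu1 (Nat.succ_ne_zero k)
    have h2 : 0 ≤ (s : ℝ) * u ^ (k + 2) := by positivity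
    linarith
  refine ⟨n, ?_, ?_⟩
  · have : (N : ℝ) ≤ n := by
      refine le_trans ?_ hun
      rw [hu]
      push_cast
      have : (0 : ℝ) ≤ (s : ℝ) ^ (k + 3) := by positivity
      linarith
    exact_mod_cast this
  rintro A x hA hx ⟨t, ht⟩ hsum
  set μ : ℝ := (t : ℝ) / s with hμ
  have hsμ : (s : ℝ) * μ = t := by
    rw [hμ]
    field_simp
  -- `A ≤ μ ≤ A + c √A`
  have hcard : ((univ : Finset (Fin s)).card : ℝ) = s := by simp
  have hμ1 : A ≤ μ := by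
    have : (s : ℝ) * A ≤ ∑ i, x i := by
      have h := Finset.card_nsmul_le_sum univ x A fun i _ => (hx i).1
      rwa [nsmul_eq_mul, hcard] at h
    rw [ht, ← hsμ] at this
    exact le_of_mul_le_mul_left this hs'
  have hμ2 : μ ≤ A + c * √A := by
    have : ∑ i, x i ≤ (s : ℝ) * (A + c * √A) := by
      have h := Finset.sum_le_card_nsmul univ x (A + c * √A) fun i _ => (hx i).2
      rwa [nsmul_eq_mul, hcard] at h
    rw [ht, ← hsμ] at this
    exact le_of_mul_le_mul_left this hs'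
  have hμ0 : 0 < μ := lt_of_lt_of_le hA hμ1
  have hxpos : ∀ i, 0 ≤ x i := fun i => hA.le.trans (hx i).1
  -- `μ ≥ 1`
  have hμge : 1 ≤ μ := by
    by_contra hlt
    rw [not_le] at hlt
    have h1 : ∑ i, x i < s := by
      rw [ht, ← hsμ]
      nlinarith
    have h2 : ∀ i, x i ≤ s := fun i =>
      (Finset.single_le_sum (fun j _ => hxpos j) (Finset.mem_univ i)).trans h1.le
    have h3 : ∑ i, x i ^ (k + 2) ≤ (s : ℝ) * s ^ (k + 2) := by
      have h := Finset.sum_le_card_nsmul univ (fun i => x i ^ (k + 2)) ((s : ℝ) ^ (k + 2)) fun i _ =>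
        pow_le_pow_left₀ (hxpos i) (h2 i) _
      rwa [nsmul_eq_mul, hcard] at h
    rw [hsum] at h3
    have h4 : (s : ℝ) * s ^ (k + 2) < u := by
      rw [hu]
      push_cast
      have : (s : ℝ) * s ^ (k + 2) = s ^ (k + 3) := by ring
      rw [this]
      have : (0 : ℝ) ≤ N := Nat.cast_nonneg _
      linarith
    linarith
  -- deviations
  have hsq : √A ≤ √μ := Real.sqrt_le_sqrt hμ1
  have hsqA : 0 ≤ √A := Real.sqrt_nonneg _
  have hw : ∀ i, |x i - μ| ≤ c * √μ := by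
    intro i
    rw [abs_le]
    obtain ⟨h1, h2⟩ := hx i
    have : c * √A ≤ c * √μ := mul_le_mul_of_nonneg_left hsq hc0.le
    constructor <;> linarith
  have hsqμ : √μ ≤ μ := by
    rw [Real.sqrt_le_left hμ0.le]
    nlinarith
  have hcμ : c * √μ ≤ μ := by
    have := Real.sqrt_nonneg μ
    nlinarith
  have htl := fun i => taylor μ (x i - μ) hμ0 (by have := (abs_le.1 (hw i)).1; linarith)
    (by have := (abs_le.1 (hw i)).2; linarith) k
  have hsw : ∑ i, (x i - μ) = 0 := by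
    rw [Finset.sum_sub_distrib, ht, Finset.sum_const, nsmul_eq_mul, hcard, hsμ, sub_self]
  have hlow : s * μ ^ (k + 2) ≤ n := by
    rw [← hsum]
    have h := Finset.sum_le_sum fun i (_ : i ∈ (univ : Finset (Fin s))) => (htl i).1
    rw [Finset.sum_add_distrib, ← Finset.mul_sum, hsw, mul_zero, add_zero, Finset.sum_const, nsmul_eq_mul,
      hcard] at h
    simpa using h
  have hup : (n : ℝ) ≤ s * μ ^ (k + 2) + s * 4 ^ (k + 2) * c ^ 2 * μ ^ (k + 1) := by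
    rw [← hsum]
    have h := Finset.sum_le_sum fun i (_ : i ∈ (univ : Finset (Fin s))) => (htl i).2
    rw [Finset.sum_add_distrib, Finset.sum_add_distrib, ← Finset.mul_sum, hsw, mul_zero, add_zero,
      Finset.sum_const, nsmul_eq_mul, hcard] at h
    have h2 : ∑ i, 4 ^ (k + 2) * (x i - μ) ^ 2 * μ ^ k ≤ (s : ℝ) * (4 ^ (k + 2) * (c ^ 2 * μ) * μ ^ k) := by
      have h3 : ∀ i ∈ (univ : Finset (Fin s)), 4 ^ (k + 2) * (x i - μ) ^ 2 * μ ^ k ≤
          4 ^ (k + 2) * (c ^ 2 * μ) * μ ^ k := by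
        intro i _
        have h4 : (x i - μ) ^ 2 ≤ c ^ 2 * μ := by
          rw [← sq_abs]
          calc |x i - μ| ^ 2 ≤ (c * √μ) ^ 2 := pow_le_pow_left₀ (abs_nonneg _) (hw i) 2
            _ = c ^ 2 * μ := by rw [mul_pow, Real.sq_sqrt hμ0.le]
        have h5 : (0 : ℝ) ≤ 4 ^ (k + 2) := by positivity
        exact mul_le_mul_of_nonneg_right (mul_le_mul_of_nonneg_left h4 h5) (by positivity)
      have h := Finset.sum_le_card_nsmul univ _ _ h3
      rwa [nsmul_eq_mul, hcard] at h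
    have h6 : ∑ i, (μ + (x i - μ)) ^ (k + 2) = ∑ i, x i ^ (k + 2) :=
      Finset.sum_congr rfl fun i _ => by rw [add_sub_cancel]
    rw [h6] at h
    refine h.trans ?_
    have h7 : (s : ℝ) * (4 ^ (k + 2) * (c ^ 2 * μ) * μ ^ k) = s * 4 ^ (k + 2) * c ^ 2 * μ ^ (k + 1) := by ring
    linarith
  -- comparison of `t` with `T`
  have hTu : (T : ℝ) = s * u := by
    rw [hT, hu]
    push_cast
    ring
  have htT : t ≤ T := by
    by_contra hcon
    rw [not_le] at hcon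
    have h1 : ((T : ℤ) : ℝ) + 1 ≤ t := by exact_mod_cast hcon
    have h2 : u + 1 / s ≤ μ := by
      rw [hμ, le_div_iff₀ hs']
      have : (u + 1 / s) * s = s * u + 1 := by field_simp
      rw [this, ← hTu]
      simpa using h1
    have h3 := (taylor u (1 / s) (by linarith) (by have : (0 : ℝ) ≤ 1 / s := by positivity
                                                   linarith) (by
      rw [div_le_iff₀ hs']
      nlinarith) k).1
    have h4 : (u + 1 / s) ^ (k + 2) ≤ μ ^ (k + 2) := pow_le_pow_left₀ (by positivity) h2 _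
    have h5 : (s : ℝ) * (u ^ (k + 2) + (k + 2 : ℕ) * u ^ (k + 1) * (1 / s)) ≤ n :=
      (mul_le_mul_of_nonneg_left (h3.trans h4) hs'.le).trans hlow
    have h6 : (s : ℝ) * (u ^ (k + 2) + (k + 2 : ℕ) * u ^ (k + 1) * (1 / s)) =
        s * u ^ (k + 2) + (k + 2 : ℕ) * u ^ (k + 1) := by
      field_simp
    rw [h6] at h5
    have h7 : (1 : ℝ) ≤ u ^ (k + 1) := one_le_pow₀ hu1
    have h8 : (2 : ℝ) ≤ ((k + 2 : ℕ) : ℝ) := by
      push_cast
      have : (0 : ℝ) ≤ k := Nat.cast_nonneg k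
      linarith
    nlinarith
  have hμu : μ ≤ u := by
    rw [hμ, div_le_iff₀ hs', mul_comm, ← hTu]
    exact_mod_cast htT
  have h1 : μ ^ (k + 2) ≤ u ^ (k + 2) := pow_le_pow_left₀ hμ0.le hμu _
  have h2 : μ ^ (k + 1) ≤ u ^ (k + 1) := pow_le_pow_left₀ hμ0.le hμu _
  have h3 : 0 < u ^ (k + 1) := by positivity
  have h4 : 0 < μ ^ (k + 1) := by positivity
  have h5 : s * 4 ^ (k + 2) * c ^ 2 * μ ^ (k + 1) < μ ^ (k + 1) := by
    have := mul_lt_mul_of_pos_right hcs h4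
    linarith
  nlinarith

end Pool.Agent.H70.WS
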