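import Pool.Agent.H70.WS.Mixed
import Pool.Agent.H70.WS.Opt
import Pool.Graph.R_pool_sql_team_seeded_b0a926ef.R500.WB.Local

/-!
# Representations by rational integers and conjugate algebraic integers: definition, existence
-/

set_option autoImplicit false

namespace Pool.Agent.H70.WS

open Finset Polynomial

/-- `n = a_1 ^ k + ⋯ + a_r ^ k + x_1 ^ k + ⋯ + x_k ^ k`, where the `a_i` are positive integers and the `x_i` are
pairwise different real numbers, all in an interval `[A, A + C √A]`, `A` a positive integer, and `x_1, …, x_k` are the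
roots of a monic polynomial `f` of degree `k` with integral coefficients which splits into linear factors modulo
`m`. -/
def Rep (k r m : ℕ) (C : ℝ) (n : ℕ) : Prop :=
  ∃ (A : ℕ) (a : Fin r → ℕ) (x : Fin k → ℝ) (f : ℤ[X]) (y : Fin k → ℤ), 0 < A ∧
    (∀ i, A ≤ a i ∧ (a i : ℝ) ≤ A + C * √(A : ℝ)) ∧ StrictMono x ∧
    (∀ i, (A : ℝ) < x i ∧ x i ≤ A + C * √(A : ℝ)) ∧ (∑ i, (a i : ℝ) ^ k) + ∑ i, x i ^ k = n ∧
    f.map (Int.castRingHom ℝ) = ∏ i, (X - Polynomial.C (x i)) ∧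
    f.map (Int.castRingHom (ZMod m)) = ∏ i, (X - Polynomial.C ((y i : ZMod m)))

theorem exists_rep {k r m : ℕ} (hk : 0 < k) (hm : 0 < m) (hloc : R500.WB.Loc k (r + k) (m * k)) :
    ∃ (C : ℝ) (N : ℕ), ∀ n : ℕ, N ≤ n → Rep k r m C n := by
  obtain ⟨C, N, h⟩ := mixed hk hm r
  refine ⟨C, N, fun n hn => ?_⟩
  obtain ⟨ρ, hρ⟩ := hloc n
  have h1 := (Nat.modEq_iff_dvd).1 hρ
  rw [Fin.sum_univ_add] at h1
  obtain ⟨A, a, x, f, g1, g2, g3, g4, g5, g6, g7⟩ := h n hn (fun i => (ρ (Fin.castAdd k i) : ℤ))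
    (fun i => (ρ (Fin.natAdd r i) : ℤ)) (by push_cast at h1 ⊢; exact h1)
  exact ⟨A, a, x, f, fun i => (ρ (Fin.natAdd r i) : ℤ), g1, fun i => ⟨(g2 i).1, (g2 i).2.1⟩, g3, g4, g5, g6, g7⟩

end Pool.Agent.H70.WS
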