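import Pool.Agent.H70.WS.Roots

/-!
# Sums of `k`-th powers of nearly equal conjugate algebraic integers
-/

set_option autoImplicit false

namespace Pool.Agent.H70.WS

open Finset Polynomial

/-- `∑ (a + θ + i C √a) ^ k` -/
noncomputable def FF (s k : ℕ) (C : ℝ) (a : ℕ) (θ : ℝ) : ℝ :=
  ∑ i : Fin s, ((a : ℝ) + (θ + (C * √(a : ℝ)) * pt s i)) ^ k

lemma FF_step (s k : ℕ) (C : ℝ) (hC : 0 < C) (a : ℕ) (ha : 0 < a) (h : (s : ℝ) * C ≤ √(a : ℝ)) :
    FF s k C (a + 1) 0 ≤ FF s k C a 2 := by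
  unfold FF
  refine Finset.sum_le_sum fun i _ => ?_
  have ha' : (0 : ℝ) < a := by exact_mod_cast ha
  have hpt0 : 0 < pt s i := by
    unfold pt
    positivity
  have hpt : pt s i ≤ s := by
    unfold pt
    exact_mod_cast i.isLt
  have h1 : (0 : ℝ) < √(a : ℝ) := Real.sqrt_pos.2 ha'
  have h2 : √(((a + 1 : ℕ) : ℝ)) - √(a : ℝ) ≤ 1 / √(a : ℝ) := by
    rw [le_div_iff₀ h1]
    have e1 : √(((a + 1 : ℕ) : ℝ)) ^ 2 = (a : ℝ) + 1 := by
      rw [Real.sq_sqrt (by positivity)]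
      push_cast
      ring
    have e2 : √(a : ℝ) ^ 2 = a := Real.sq_sqrt ha'.le
    have e3 : √(a : ℝ) ≤ √(((a + 1 : ℕ) : ℝ)) := Real.sqrt_le_sqrt (by push_cast; linarith)
    nlinarith
  have h3 : C * pt s i * (√(((a + 1 : ℕ) : ℝ)) - √(a : ℝ)) ≤ 1 := by
    have e1 : C * pt s i ≤ √(a : ℝ) := by
      calc C * pt s i ≤ C * s := mul_le_mul_of_nonneg_left hpt hC.le
        _ ≤ _ := by linarith
    calc C * pt s i * (√(((a + 1 : ℕ) : ℝ)) - √(a : ℝ)) ≤ C * pt s i * (1 / √(a : ℝ)) :=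
          mul_le_mul_of_nonneg_left h2 (by positivity)
      _ = (C * pt s i) / √(a : ℝ) := by ring
      _ ≤ 1 := (div_le_one h1).2 e1
  refine pow_le_pow_left₀ (by positivity) ?_ k
  push_cast at h3 ⊢
  nlinarith

lemma FF_ge (s k : ℕ) (C : ℝ) (hC : 0 < C) (a : ℕ) (hs : 0 < s) (hk : 0 < k) : (a : ℝ) ≤ FF s k C a 0 := by
  unfold FF
  have h1 : ((a : ℝ) + (0 + (C * √(a : ℝ)) * pt s ⟨0, hs⟩)) ^ k ≤
      ∑ i : Fin s, ((a : ℝ) + (0 + (C * √(a : ℝ)) * pt s i)) ^ k := by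
    refine Finset.single_le_sum (f := fun i : Fin s => ((a : ℝ) + (0 + (C * √(a : ℝ)) * pt s i)) ^ k)
      (fun i _ => ?_) (Finset.mem_univ _)
    have : 0 ≤ pt s i := by
      unfold pt
      positivity
    positivity
  refine le_trans ?_ h1
  have h2 : (0 : ℝ) ≤ C * √(a : ℝ) * pt s ⟨0, hs⟩ := by
    unfold pt
    positivity
  have h3 : (a : ℝ) ^ k ≤ ((a : ℝ) + (0 + (C * √(a : ℝ)) * pt s ⟨0, hs⟩)) ^ k :=
    pow_le_pow_left₀ (Nat.cast_nonneg _) (by linarith) k
  refine le_trans ?_ h3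
  rcases Nat.eq_zero_or_pos a with rfl | ha
  · simp [hk.ne']
  · exact_mod_cast Nat.le_self_pow hk.ne' a

lemma FF_cont (s k : ℕ) (C : ℝ) (a : ℕ) : Continuous (FF s k C a) := by
  unfold FF
  fun_prop

/-- choice of `a` and `θ` -/
lemma exists_a (s k : ℕ) (C : ℝ) (hC : 0 < C) (hs : 0 < s) (hk : 0 < k) (a0 : ℕ) (ha0 : 0 < a0)
    (h0 : (s : ℝ) * C ≤ √(a0 : ℝ)) : ∃ N : ℕ, ∀ n : ℕ, N ≤ n → ∃ (a : ℕ) (θ : ℝ), a0 ≤ a ∧ 0 ≤ θ ∧ θ ≤ 2 ∧
      FF s k C a θ = n := by
  classical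
  refine ⟨⌈FF s k C a0 0⌉₊, fun n hn => ?_⟩
  have hn' : FF s k C a0 0 ≤ n := (Nat.le_ceil _).trans (by exact_mod_cast hn)
  have hex : ∃ a : ℕ, a0 ≤ a ∧ (n : ℝ) < FF s k C (a + 1) 0 := by
    refine ⟨n + a0, by omega, ?_⟩
    have := FF_ge s k C hC (n + a0 + 1) hs hk
    push_cast at this ⊢
    have h1 : (0 : ℝ) < a0 := by exact_mod_cast ha0
    linarith
  obtain ⟨ha, hlt⟩ := Nat.find_spec hex
  set a := Nat.find hex with hadef
  have hle : FF s k C a 0 ≤ n := by
    rcases Nat.lt_or_ge a0 a with h | h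
    · have hmin := Nat.find_min hex (m := a - 1) (by omega)
      push Not at hmin
      have := hmin (by omega)
      rwa [Nat.sub_add_cancel (by omega)] at this
    · have : a = a0 := le_antisymm h ha
      rw [this]
      exact hn'
  have hsa : (s : ℝ) * C ≤ √(a : ℝ) := h0.trans (Real.sqrt_le_sqrt (by exact_mod_cast ha))
  have hge : (n : ℝ) ≤ FF s k C a 2 := hlt.le.trans (FF_step s k C hC a (by omega) hsa)
  obtain ⟨θ, ⟨h1, h2⟩, h3⟩ := intermediate_value_Icc (by norm_num : (0 : ℝ) ≤ 2) (FF_cont s k C a).continuousOn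
    (show (n : ℝ) ∈ Set.Icc (FF s k C a 0) (FF s k C a 2) from ⟨hle, hge⟩)
  exact ⟨a, θ, ha, h1, h2, h3⟩

/-- **Main theorem.** -/
theorem main {k s m : ℕ} (hk : 0 < k) (hks : k ≤ s) (hm : 0 < m) :
    ∃ (C : ℝ) (N : ℕ), 0 < C ∧ ∀ n : ℕ, N ≤ n → ∀ y : Fin s → ℤ, ((m * k : ℕ) : ℤ) ∣ (n : ℤ) - ∑ i, y i ^ k →
      ∃ (A : ℕ) (x : Fin s → ℝ) (f : ℤ[X]), 0 < A ∧ StrictMono x ∧ (∀ i, (A : ℝ) < x i ∧ x i ≤ A + C * √(A : ℝ)) ∧ ∑ i, x i ^ k = n ∧
      f.map (Int.castRingHom ℝ) = ∏ i, (X - Polynomial.C (x i)) ∧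
      f.map (Int.castRingHom (ZMod m)) = ∏ i, (X - Polynomial.C ((y i : ZMod m))) := by
  have hs : 0 < s := by omega
  obtain ⟨ε, hε, hroots⟩ := roots_near s hs
  obtain ⟨ρ, hρ, hen⟩ := en_close (nw (es (pt s))) k ε hε
  -- continuity at the model point
  obtain ⟨τ0, hτ0, hτ⟩ : ∃ τ0 : ℝ, 0 < τ0 ∧ ∀ τ : ℝ, |τ| < τ0 → ∀ j, 1 ≤ j → j ≤ k →
      |∑ i, (τ + pt s i) ^ j - ∑ i, pt s i ^ j| < ρ / 2 := by
    have hc : Continuous fun τ : ℝ => ∑ j ∈ range (k + 1), |∑ i, (τ + pt s i) ^ j - ∑ i, pt s i ^ j| := by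
      fun_prop
    obtain ⟨τ0, h1, h2⟩ := Metric.continuous_iff.1 hc 0 (ρ / 2) (by positivity)
    refine ⟨τ0, h1, fun τ hτ j hj1 hj2 => ?_⟩
    have h3 := h2 τ (by rw [Real.dist_eq, sub_zero]; exact hτ)
    rw [Real.dist_eq] at h3
    have h4 : ∑ j ∈ range (k + 1), |∑ i, ((0 : ℝ) + pt s i) ^ j - ∑ i, pt s i ^ j| = 0 := by
      simp
    rw [h4, sub_zero, abs_of_nonneg (Finset.sum_nonneg fun _ _ => abs_nonneg _)] at h3
    refine lt_of_le_of_lt ?_ h3
    exact Finset.single_le_sum (f := fun j => |∑ i, (τ + pt s i) ^ j - ∑ i, pt s i ^ j|) (fun _ _ => abs_nonneg _)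
      (Finset.mem_range.2 (by omega))
  set M : ℝ := ((m * k : ℕ) : ℝ) with hM
  have hM0 : 0 < M := by
    rw [hM]
    exact_mod_cast Nat.mul_pos hm hk
  have hk0 : (0 : ℝ) < k := by exact_mod_cast hk
  have hk1 : (1 : ℝ) ≤ k := by exact_mod_cast hk
  set C : ℝ := 4 * k ^ 2 * M / ρ + 1 with hC
  have hC1 : 1 < C := by
    have : 0 < 4 * k ^ 2 * M / ρ := by positivity
    linarith
  clear_value M C
  -- the lower bound for `√a`
  set Q : ℝ := s * C + 4 / τ0 + 4 * M / ρ + 2 * M / ε + 1 with hQ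
  have hQ1 : s * C ≤ Q := by
    have : 0 < 4 / τ0 + 4 * M / ρ + 2 * M / ε + 1 := by positivity
    linarith
  obtain ⟨N, hN⟩ := exists_a s k C (by linarith) hs hk (⌈Q⌉₊ ^ 2 + 1) (by positivity) (by
    refine hQ1.trans ((Nat.le_ceil Q).trans ?_)
    refine Real.le_sqrt_of_sq_le ?_
    push_cast
    linarith)
  refine ⟨C * (s + 1), N, by positivity, fun n hn y hy => ?_⟩
  obtain ⟨a, θ, ha, hθ0, hθ2, hF⟩ := hN n hn
  clear_value Q
  have ha0 : 0 < a := lt_of_lt_of_le (Nat.succ_pos _) ha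
  have ha' : (0 : ℝ) < a := by exact_mod_cast ha0
  have ha1 : (1 : ℝ) ≤ a := by exact_mod_cast ha0
  set q : ℝ := √(a : ℝ) with hq
  have hqQ : Q < q := by
    have h1 : Q ≤ ⌈Q⌉₊ := Nat.le_ceil Q
    have h2 : ((⌈Q⌉₊ : ℕ) : ℝ) < q := by
      rw [hq]
      refine Real.lt_sqrt_of_sq_lt ?_
      have : ((⌈Q⌉₊ ^ 2 + 1 : ℕ) : ℝ) ≤ a := by exact_mod_cast ha
      push_cast at this
      linarith
    linarith
  have hq2 : q ^ 2 = a := Real.sq_sqrt ha'.le
  have hQpos : 1 ≤ Q := by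
    have : 0 < s * C + 4 / τ0 + 4 * M / ρ + 2 * M / ε := by positivity
    linarith
  have hq1 : 1 < q := lt_of_le_of_lt hQpos hqQ
  have hqτ : 4 / τ0 < q := by
    have : 0 < s * C + 4 * M / ρ + 2 * M / ε := by positivity
    linarith
  have hqρ : 4 * M / ρ < q := by
    have : 0 < s * C + 4 / τ0 + 2 * M / ε := by positivity
    linarith
  have hqε : 2 * M / ε < q := by
    have : 0 < s * C + 4 / τ0 + 4 * M / ρ := by positivity
    linarith
  set δ : ℝ := C * q with hδ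
  have hδq : q < δ := by
    rw [hδ]
    nlinarith
  have hδ1 : 1 < δ := hq1.trans hδq
  have hδ0 : 0 < δ := by linarith
  clear_value δ q
  -- the choice of the coefficients
  set z0 : Fin s → ℝ := fun i => θ + δ * pt s i with hz0
  have hp0 : (s : ℝ) * (a : ℝ) ^ k + ∑ i ∈ range k, (k.choose (i + 1) : ℝ) * (a : ℝ) ^ (k - (i + 1)) *
      nw (es z0) (i + 1) = ((n : ℤ) : ℝ) := by
    rw [← sum_pow z0 (a : ℝ) k]
    have : ∑ i, ((a : ℝ) + z0 i) ^ k = FF s k C a θ := by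
      rw [hz0]
      unfold FF
      rw [← hq, ← hδ]
    rw [this, hF]
    simp
  obtain ⟨e, he0, hel, hem, hex, heb, het⟩ := choose hk hm ha0 (nw (es z0)) hks y (n : ℤ) hy hp0
    (fun j => δ ^ j * es (pt s) j)
  set c : ℝ := δ⁻¹ with hc
  have hc0 : 0 < c := inv_pos.2 hδ0
  have hcδ : c * δ = 1 := inv_mul_cancel₀ hδ0.ne'
  have hc1 : c ≤ 1 := inv_le_one_of_one_le₀ hδ1.le
  clear_value c
  simp only [← hM] at heb het
  set e1 : ℕ → ℝ := fun j => c ^ j * (e j : ℝ) with he1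
  -- power sums are near the model
  have hpow : ∀ j, 1 ≤ j → j ≤ k → |nw e1 j - nw (es (pt s)) j| < ρ := by
    intro j hj1 hj2
    have h1 : nw e1 j = c ^ j * ((nw e j : ℤ) : ℝ) := by
      rw [he1, nw_scale]
      congr 1
      exact nw_map (Int.castRingHom ℝ) e j
    have h2 := heb j hj1 hj2
    have h3 : c ^ j * nw (es z0) j = ∑ i, (θ * c + pt s i) ^ j := by
      rw [nw_es z0 j hj1, Finset.mul_sum]
      refine Finset.sum_congr rfl fun i _ => ?_
      rw [← mul_pow, hz0]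
      dsimp only
      congr 1
      calc c * (θ + δ * pt s i) = θ * c + (c * δ) * pt s i := by ring
        _ = _ := by rw [hcδ, one_mul]
    have h4 : |∑ i, (θ * c + pt s i) ^ j - ∑ i, pt s i ^ j| < ρ / 2 := by
      refine hτ _ ?_ j hj1 hj2
      rw [abs_of_nonneg (by positivity)]
      have : c < τ0 / 4 := by
        rw [hc, inv_lt_comm₀ hδ0 (by positivity), inv_div]
        exact hqτ.trans hδq
      calc θ * c ≤ 2 * c := mul_le_mul_of_nonneg_right hθ2 hc0.le
        _ < τ0 := by linarith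
    have h5 : c ^ j * |((nw e j : ℤ) : ℝ) - nw (es z0) j| ≤ ρ / 2 := by
      have hcj : 0 < c ^ j := by positivity
      refine (mul_le_mul_of_nonneg_left h2 hcj.le).trans ?_
      by_cases hj : j = 1
      · subst hj
        rw [if_pos rfl, add_zero, pow_one]
        rw [Nat.cast_one, one_mul]
        have : M * c < ρ / 4 := by
          rw [hc, ← div_eq_mul_inv, div_lt_iff₀ hδ0]
          rw [div_lt_iff₀ hρ] at hqρ
          nlinarith
        nlinarith
      · rw [if_neg hj]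
        have hj2' : 2 ≤ j := by omega
        have hcj2 : c ^ j ≤ c ^ 2 := pow_le_pow_of_le_one hc0.le hc1 hj2'
        have hjk : (j : ℝ) ≤ k := by exact_mod_cast hj2
        have e2 : (j : ℝ) * M + (a : ℝ) * k ^ 2 * M ≤ 2 * ((a : ℝ) * k ^ 2 * M) := by
          have : (j : ℝ) ≤ (a : ℝ) * k ^ 2 := by
            calc (j : ℝ) ≤ k := hjk
              _ ≤ k ^ 2 := by nlinarith
              _ ≤ (a : ℝ) * k ^ 2 := by nlinarith [sq_nonneg (k : ℝ)]
          nlinarith
        have e3 : c ^ 2 * a = 1 / C ^ 2 := by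
          rw [hc, hδ, ← hq2]
          have hqne : q ≠ 0 := by linarith
          have hCne : C ≠ 0 := by linarith
          field_simp
        have e4 : 4 * k ^ 2 * M / ρ < C ^ 2 := by
          have : 4 * k ^ 2 * M / ρ < C := by
            rw [hC]
            linarith
          nlinarith
        have e5 : 2 * k ^ 2 * M * (1 / C ^ 2) ≤ ρ / 2 := by
          rw [mul_one_div, div_le_iff₀ (by positivity)]
          rw [div_lt_iff₀ hρ] at e4
          nlinarith
        calc c ^ j * ((j : ℝ) * M + (a : ℝ) * k ^ 2 * M)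
            ≤ c ^ 2 * ((j : ℝ) * M + (a : ℝ) * k ^ 2 * M) :=
              mul_le_mul_of_nonneg_right hcj2 (by positivity)
          _ ≤ c ^ 2 * (2 * ((a : ℝ) * k ^ 2 * M)) := mul_le_mul_of_nonneg_left e2 (by positivity)
          _ = 2 * k ^ 2 * M * (c ^ 2 * a) := by ring
          _ ≤ ρ / 2 := by
              rw [e3]
              exact e5
    have h6 : |c ^ j * ((nw e j : ℤ) : ℝ) - c ^ j * nw (es z0) j| ≤ ρ / 2 := by
      rw [← mul_sub, abs_mul, abs_of_pos (by positivity)]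
      exact h5
    rw [h1, nw_es (pt s) j hj1]
    rw [h3] at h6
    calc |c ^ j * ((nw e j : ℤ) : ℝ) - ∑ i, pt s i ^ j|
        ≤ |c ^ j * ((nw e j : ℤ) : ℝ) - ∑ i, (θ * c + pt s i) ^ j| +
          |∑ i, (θ * c + pt s i) ^ j - ∑ i, pt s i ^ j| := abs_sub_le _ _ _
      _ < ρ := by linarith
  -- the coefficients are near the model
  have hnear : ∀ j, 1 ≤ j → j ≤ s → |e1 j - es (pt s) j| < ε := by
    intro j hj1 hj2
    rcases Nat.lt_or_ge k j with hkj | hkj
    · have h1 := het j hkj hj2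
      have h2 : e1 j - es (pt s) j = c ^ j * ((e j : ℝ) - δ ^ j * es (pt s) j) := by
        rw [he1]
        dsimp only
        have : c ^ j * δ ^ j = 1 := by rw [← mul_pow, hcδ, one_pow]
        linear_combination (es (pt s) j) * this
      rw [h2, abs_mul, abs_of_pos (by positivity)]
      have h3 : c ^ j ≤ c := by
        calc c ^ j ≤ c ^ 1 := pow_le_pow_of_le_one hc0.le hc1 hj1
          _ = c := pow_one c
      have h4 : c * M < ε := by
        rw [hc, inv_mul_lt_iff₀ hδ0]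
        rw [div_lt_iff₀ hε] at hqε
        nlinarith
      calc c ^ j * |(e j : ℝ) - δ ^ j * es (pt s) j| ≤ c * M :=
            mul_le_mul h3 h1 (abs_nonneg _) hc0.le
        _ < ε := h4
    · have h1 := hen (nw e1) hpow j hkj
      rwa [en_nw e1 (by rw [he1]; simp [he0]) j, en_nw (es (pt s)) (es_zero _) j] at h1
  obtain ⟨r, hr1, hr2, hr3⟩ := hroots e1 (by rw [he1]; simp [he0]) hnear
  -- back to the original scale
  set z : Fin s → ℝ := fun i => δ * r i with hz
  have hes1 : ∀ j, j ≤ s → e1 j = es r j := by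
    intro j hj
    have h1 := gp_coeff s e1 j hj
    rw [hr3, ← gp_es, gp_coeff s (es r) j hj] at h1
    have h2 : ((-1 : ℝ) ^ j) ≠ 0 := pow_ne_zero _ (by norm_num)
    exact (mul_left_cancel₀ h2 h1).symm
  have hes : ∀ j, es z j = (e j : ℝ) := by
    intro j
    rcases Nat.lt_or_ge s j with h | h
    · rw [es_large z j h, hel j h]
      simp
    · rw [hz, es_scale, ← hes1 j h, he1]
      dsimp only
      have : δ ^ j * c ^ j = 1 := by rw [← mul_pow, mul_comm, hcδ, one_pow]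
      rw [← mul_assoc, this, one_mul]
  refine ⟨a, fun i => (a : ℝ) + z i, (gp s e).comp (X - Polynomial.C (a : ℤ)), ha0, ?_, ?_, ?_, ?_, ?_⟩
  · intro i j hij
    have := hr1 hij
    dsimp only
    rw [hz]
    dsimp only
    nlinarith
  · intro i
    obtain ⟨h1, h2⟩ := hr2 i
    constructor
    · rw [hz]
      dsimp only
      nlinarith
    · rw [hz, hδ]
      dsimp only
      have : C * q * r i ≤ C * q * (s + 1) := mul_le_mul_of_nonneg_left h2.le (by positivity)
      nlinarith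
  · rw [sum_pow z (a : ℝ) k]
    have h1 : ∀ i, nw (es z) i = ((nw e i : ℤ) : ℝ) := by
      intro i
      have : es z = fun j => (Int.castRingHom ℝ) (e j) := by
        funext j
        rw [hes j]
        simp
      rw [this, nw_map]
      simp
    simp only [h1]
    exact_mod_cast hex
  · rw [Polynomial.map_comp, gp_map]
    have h1 : gp s (fun j => (Int.castRingHom ℝ) (e j)) = ∏ i, (X - Polynomial.C (z i)) := by
      rw [← gp_es]
      refine gp_congr s _ _ fun j _ => ?_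
      rw [hes j]
      simp
    rw [h1, Polynomial.prod_comp]
    refine Finset.prod_congr rfl fun i _ => ?_
    simp only [sub_comp, X_comp, C_comp, Polynomial.map_sub, map_X, map_C]
    simp only [Int.coe_castRingHom, Int.cast_natCast, C_add]
    ring
  · rw [Polynomial.map_comp, gp_map]
    have h1 : gp s (fun j => (Int.castRingHom (ZMod m)) (e j)) =
        ∏ i, (X - Polynomial.C ((Int.castRingHom (ZMod m)) (y i - (a : ℤ)))) := by
      rw [← gp_es]
      refine gp_congr s _ _ fun j hj => ?_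
      rw [es_map (Int.castRingHom (ZMod m)) (fun i => y i - (a : ℤ)) j]
      have := hem j hj
      rw [← ZMod.intCast_zmod_eq_zero_iff_dvd, Int.cast_sub, sub_eq_zero] at this
      simpa using this
    rw [h1, Polynomial.prod_comp]
    refine Finset.prod_congr rfl fun i _ => ?_
    simp only [sub_comp, X_comp, C_comp, Polynomial.map_sub, map_X, map_C, map_sub]
    simp

end Pool.Agent.H70.WS
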