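import Pool.Agent.H70.WS.Main

/-!
# Rational integers and conjugate algebraic integers
-/

set_option autoImplicit false

namespace Pool.Agent.H70.WS

open Finset Polynomial

lemma pow_add_le (a c : ℝ) (ha : 0 ≤ a) (hc : 0 ≤ c) (k : ℕ) : a ^ (k + 1) + c * a ^ k ≤ (a + c) ^ (k + 1) := by
  have h1 : a ^ k ≤ (a + c) ^ k := pow_le_pow_left₀ ha (by linarith) k
  have h2 : (a + c) ^ (k + 1) = a * (a + c) ^ k + c * (a + c) ^ k := by ring
  rw [h2, pow_succ]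
  nlinarith [mul_le_mul_of_nonneg_left h1 ha, mul_le_mul_of_nonneg_left h1 hc]

lemma pow_add_ge (a c : ℝ) (ha : 0 < a) (hc : 0 ≤ c) (hca : c ≤ a) (k : ℕ) :
    (a + c) ^ (k + 1) ≤ a ^ (k + 1) + (3 ^ (k + 1) * c) * a ^ k := by
  induction k with
  | zero =>
    simp only [zero_add, pow_one, pow_zero]
    linarith
  | succ k ih =>
    have h0 : 0 ≤ a + c := by linarith
    have h1 : (a + c) ^ (k + 1 + 1) = (a + c) * (a + c) ^ (k + 1) := by ring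
    rw [h1]
    refine (mul_le_mul_of_nonneg_left ih h0).trans ?_
    have h2 : (a + c) * (a ^ (k + 1) + (3 ^ (k + 1) * c) * a ^ k) =
        a ^ (k + 1 + 1) + c * a ^ (k + 1) + 3 ^ (k + 1) * c * a ^ (k + 1) + 3 ^ (k + 1) * c * (c * a ^ k) := by ring
    rw [h2]
    have h3 : c * a ^ k ≤ a ^ (k + 1) := by
      rw [pow_succ']
      exact mul_le_mul_of_nonneg_right hca (by positivity)
    have h4 : 3 ^ (k + 1) * c * (c * a ^ k) ≤ 3 ^ (k + 1) * c * a ^ (k + 1) :=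
      mul_le_mul_of_nonneg_left h3 (by positivity)
    have h5 : (1 : ℝ) ≤ 3 ^ (k + 1) := one_le_pow₀ (by norm_num)
    have h6 : c * a ^ (k + 1) ≤ 3 ^ (k + 1) * (c * a ^ (k + 1)) := le_mul_of_one_le_left (by positivity) h5
    have h7 : (3 : ℝ) ^ (k + 1 + 1) * c * a ^ (k + 1) = 3 * (3 ^ (k + 1) * (c * a ^ (k + 1))) := by ring
    rw [h7]
    linarith

/-- **Main theorem, mixed form.** -/
theorem mixed {k m : ℕ} (hk : 0 < k) (hm : 0 < m) (r : ℕ) :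
    ∃ (C : ℝ) (N : ℕ), ∀ n : ℕ, N ≤ n → ∀ (y : Fin r → ℤ) (y' : Fin k → ℤ),
      ((m * k : ℕ) : ℤ) ∣ (n : ℤ) - (∑ i, y i ^ k + ∑ i, y' i ^ k) →
      ∃ (A : ℕ) (a : Fin r → ℕ) (x : Fin k → ℝ) (f : ℤ[X]), 0 < A ∧
        (∀ i, A ≤ a i ∧ (a i : ℝ) ≤ A + C * √(A : ℝ) ∧ (m : ℤ) ∣ (a i : ℤ) - y i) ∧ StrictMono x ∧
        (∀ i, (A : ℝ) < x i ∧ x i ≤ A + C * √(A : ℝ)) ∧ (∑ i, (a i : ℝ) ^ k) + ∑ i, x i ^ k = n ∧
        f.map (Int.castRingHom ℝ) = ∏ i, (X - Polynomial.C (x i)) ∧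
        f.map (Int.castRingHom (ZMod m)) = ∏ i, (X - Polynomial.C ((y' i : ZMod m))) := by
  classical
  obtain ⟨C, N, hC, hmain⟩ := main (k := k) (s := k) (m := m) hk le_rfl hm
  obtain ⟨l, rfl⟩ : ∃ l, k = l + 1 := ⟨k - 1, by omega⟩
  set k := l + 1 with hkl
  set M : ℕ := m * k with hM
  have hM0 : 0 < M := Nat.mul_pos hm hk
  set s : ℕ := r + k with hs
  -- constants
  set S : ℝ := s * 3 ^ k with hS
  set c' : ℝ := r * (3 ^ k * M) with hc'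
  have hS0 : 0 ≤ S := by positivity
  have hc'0 : 0 ≤ c' := by positivity
  have hkR : (0 : ℝ) < k := by exact_mod_cast hk
  have hk1 : (1 : ℝ) ≤ k := by exact_mod_cast hk
  -- `A0`
  set B : ℕ := M + ⌈c'⌉₊ + N + 1 with hB
  refine ⟨S + C * (1 + S) + M + c' + C, s * B ^ k, fun n hn y y' hy => ?_⟩
  have hex : ∃ b : ℕ, n < s * (b + 1) ^ k := by
    refine ⟨n, ?_⟩
    have h1 : n < (n + 1) ^ k := lt_of_lt_of_le (Nat.lt_succ_self n) (Nat.le_self_pow hk.ne' _)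
    have h2 : (n + 1) ^ k ≤ s * (n + 1) ^ k := Nat.le_mul_of_pos_left _ (by omega)
    omega
  have hA1 := Nat.find_spec hex
  set A0 : ℕ := Nat.find hex with hA0
  have hBA : B ≤ A0 := by
    by_contra hcon
    rw [not_le] at hcon
    have h1 : (A0 + 1) ^ k ≤ B ^ k := Nat.pow_le_pow_left hcon k
    have h2 : s * (A0 + 1) ^ k ≤ s * B ^ k := Nat.mul_le_mul_left s h1
    omega
  have hA2 : s * A0 ^ k ≤ n := by
    rcases Nat.eq_zero_or_pos A0 with h | h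
    · omega
    · have := Nat.find_min hex (m := A0 - 1) (by omega)
      rw [not_lt, Nat.sub_add_cancel h] at this
      exact this
  have hA0pos : 0 < A0 := by omega
  have hA0R : (0 : ℝ) < A0 := by exact_mod_cast hA0pos
  have hA01 : (1 : ℝ) ≤ A0 := by exact_mod_cast hA0pos
  have hMA : (M : ℝ) ≤ A0 := by exact_mod_cast (by omega : M ≤ A0)
  have hcA : c' + N + 1 ≤ A0 := by
    have h1 : c' ≤ ⌈c'⌉₊ := Nat.le_ceil _
    have h2 : ((⌈c'⌉₊ + N + 1 : ℕ) : ℝ) ≤ A0 := by exact_mod_cast (by omega : ⌈c'⌉₊ + N + 1 ≤ A0)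
    push_cast at h2
    linarith
  -- the rational integers
  set a : Fin r → ℕ := fun i => A0 + ((y i - (A0 : ℤ)) % (M : ℤ)).toNat with ha
  have hMz : (M : ℤ) ≠ 0 := by exact_mod_cast hM0.ne'
  have hmod : ∀ i, (a i : ℤ) = A0 + (y i - (A0 : ℤ)) % (M : ℤ) := fun i => by
    rw [ha]
    dsimp only
    push_cast
    rw [Int.toNat_of_nonneg (Int.emod_nonneg _ hMz)]
  have ha1 : ∀ i, A0 ≤ a i := fun i => Nat.le_add_right _ _
  have ha2 : ∀ i, a i ≤ A0 + M := fun i => by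
    have h1 := Int.emod_lt_of_pos (y i - (A0 : ℤ)) (by exact_mod_cast hM0 : (0 : ℤ) < M)
    have h2 := hmod i
    omega
  have ha3 : ∀ i, (M : ℤ) ∣ (a i : ℤ) - y i := fun i => by
    rw [hmod i]
    have h1 := Int.mul_ediv_add_emod (y i - (A0 : ℤ)) (M : ℤ)
    exact ⟨-((y i - (A0 : ℤ)) / (M : ℤ)), by linear_combination h1⟩
  have haR1 : ∀ i, (A0 : ℝ) ≤ a i := fun i => by exact_mod_cast ha1 i
  have haR2 : ∀ i, (a i : ℝ) ≤ A0 + M := fun i => by exact_mod_cast ha2 i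
  -- the sum of the rational powers
  have hup : (∑ i, (a i : ℝ) ^ k) ≤ r * (A0 : ℝ) ^ k + c' * (A0 : ℝ) ^ l := by
    have h1 : ∀ i ∈ (univ : Finset (Fin r)), (a i : ℝ) ^ k ≤ (A0 : ℝ) ^ k + (3 ^ k * M) * (A0 : ℝ) ^ l := fun i _ =>
      (pow_le_pow_left₀ (Nat.cast_nonneg _) (haR2 i) k).trans
        (pow_add_ge (A0 : ℝ) M hA0R (Nat.cast_nonneg _) hMA l)
    have h2 := Finset.sum_le_card_nsmul univ _ _ h1
    rw [Finset.card_univ, Fintype.card_fin, nsmul_eq_mul] at h2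
    refine h2.trans (le_of_eq ?_)
    rw [hc']
    ring
  have hdown : (r : ℝ) * (A0 : ℝ) ^ k ≤ ∑ i, (a i : ℝ) ^ k := by
    have h2 := Finset.card_nsmul_le_sum univ (fun i => (a i : ℝ) ^ k) ((A0 : ℝ) ^ k) fun i _ =>
      pow_le_pow_left₀ hA0R.le (haR1 i) k
    rwa [Finset.card_univ, Fintype.card_fin, nsmul_eq_mul] at h2
  have hnlow : (s : ℝ) * (A0 : ℝ) ^ k ≤ n := by exact_mod_cast hA2
  have hnup : (n : ℝ) < s * ((A0 : ℝ) + 1) ^ k := by exact_mod_cast hA1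
  have hsR : (s : ℝ) = r + k := by
    rw [hs]
    push_cast
    ring
  have hpowA : (A0 : ℝ) ^ k = A0 * (A0 : ℝ) ^ l := by rw [hkl, pow_succ']
  have hAl : (1 : ℝ) ≤ (A0 : ℝ) ^ l := one_le_pow₀ hA01
  -- the remainder
  have hrem1 : (k : ℝ) * (A0 : ℝ) ^ k - c' * (A0 : ℝ) ^ l ≤ n - ∑ i, (a i : ℝ) ^ k := by
    rw [hsR] at hnlow
    linarith
  have hrem2 : (n : ℝ) - ∑ i, (a i : ℝ) ^ k < k * (A0 : ℝ) ^ k + S * (A0 : ℝ) ^ l := by
    have h1 := pow_add_ge (A0 : ℝ) 1 hA0R zero_le_one hA01 l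
    rw [mul_one] at h1
    have h2 : (s : ℝ) * ((A0 : ℝ) + 1) ^ k ≤ s * ((A0 : ℝ) ^ k + 3 ^ k * (A0 : ℝ) ^ l) :=
      mul_le_mul_of_nonneg_left h1 (Nat.cast_nonneg _)
    have h3 : (s : ℝ) * ((A0 : ℝ) ^ k + 3 ^ k * (A0 : ℝ) ^ l) = r * (A0 : ℝ) ^ k + k * (A0 : ℝ) ^ k +
        S * (A0 : ℝ) ^ l := by
      rw [mul_add, hS, hsR]
      ring
    linarith
  have hremN : (N : ℝ) ≤ n - ∑ i, (a i : ℝ) ^ k := by
    refine le_trans ?_ hrem1
    have h1 : (A0 : ℝ) ^ k ≤ k * (A0 : ℝ) ^ k := le_mul_of_one_le_left (by positivity) hk1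
    have h2 : ((N : ℝ) + 1) * (A0 : ℝ) ^ l ≤ (A0 - c') * (A0 : ℝ) ^ l :=
      mul_le_mul_of_nonneg_right (by linarith) (by positivity)
    have h3 : (N : ℝ) ≤ (N + 1) * (A0 : ℝ) ^ l := by
      have : (0 : ℝ) ≤ N := Nat.cast_nonneg _
      nlinarith
    rw [hpowA] at h1 ⊢
    nlinarith
  have hsumle : ∑ i, a i ^ k ≤ n := by
    have : (∑ i, (a i : ℝ) ^ k) ≤ n := by
      have : (0 : ℝ) ≤ N := Nat.cast_nonneg _
      linarith
    exact_mod_cast this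
  set n' : ℕ := n - ∑ i, a i ^ k with hn'
  have hn'R : (n' : ℝ) = n - ∑ i, (a i : ℝ) ^ k := by
    rw [hn', Nat.cast_sub hsumle]
    push_cast
    ring
  have hNn' : N ≤ n' := by
    have : (N : ℝ) ≤ n' := by
      rw [hn'R]
      exact hremN
    exact_mod_cast this
  have hdvd : ((m * k : ℕ) : ℤ) ∣ (n' : ℤ) - ∑ i, y' i ^ k := by
    rw [hn', Nat.cast_sub hsumle]
    push_cast
    have h1 : ((m * k : ℕ) : ℤ) ∣ ∑ i, ((y i) ^ k - (a i : ℤ) ^ k) := by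
      refine Finset.dvd_sum fun i _ => ?_
      have h2 : (M : ℤ) ∣ y i - (a i : ℤ) := by
        have := ha3 i
        rw [← Int.dvd_neg, neg_sub] at this
        exact this
      exact h2.trans (sub_dvd_pow_sub_pow _ _ k)
    have h2 : (n : ℤ) - ∑ i, (a i : ℤ) ^ k - ∑ i, y' i ^ k = ((n : ℤ) - (∑ i, y i ^ k + ∑ i, y' i ^ k)) +
        ∑ i, ((y i) ^ k - (a i : ℤ) ^ k) := by
      rw [Finset.sum_sub_distrib]
      ring
    have h3 : ((m * k : ℕ) : ℤ) ∣ (n : ℤ) - ∑ i, (a i : ℤ) ^ k - ∑ i, y' i ^ k := by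
      rw [h2]
      exact dvd_add hy h1
    push_cast at h3
    exact h3
  obtain ⟨A', x, f, hA', hx1, hx2, hx3, hf1, hf2⟩ := hmain n' hNn' y' hdvd
  have hA'R : (0 : ℝ) < A' := by exact_mod_cast hA'
  have hA'1 : (1 : ℝ) ≤ A' := by exact_mod_cast hA'
  -- comparison of `A'` and `A0`
  have hcmp1 : (A' : ℝ) ≤ A0 + S := by
    by_contra hcon
    rw [not_le] at hcon
    have h1 : (A0 : ℝ) ^ k + S * (A0 : ℝ) ^ l ≤ (A0 + S) ^ k := pow_add_le (A0 : ℝ) S hA0R.le hS0 l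
    have h2 : ((A0 : ℝ) + S) ^ k ≤ (A' : ℝ) ^ k := pow_le_pow_left₀ (by positivity) hcon.le k
    have h3 : (k : ℝ) * (A' : ℝ) ^ k ≤ ∑ i, x i ^ k := by
      have h := Finset.card_nsmul_le_sum univ (fun i => x i ^ k) ((A' : ℝ) ^ k) fun i _ =>
        pow_le_pow_left₀ hA'R.le (hx2 i).1.le k
      rwa [Finset.card_univ, Fintype.card_fin, nsmul_eq_mul] at h
    rw [hx3, hn'R] at h3
    have h4 : (k : ℝ) * ((A0 : ℝ) ^ k + S * (A0 : ℝ) ^ l) ≤ k * (A' : ℝ) ^ k :=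
      mul_le_mul_of_nonneg_left (h1.trans h2) hkR.le
    have h5 : S * (A0 : ℝ) ^ l ≤ k * (S * (A0 : ℝ) ^ l) := le_mul_of_one_le_left (by positivity) hk1
    rw [mul_add] at h4
    linarith
  have hcmp2 : (A0 : ℝ) - c' ≤ A' + C * √(A' : ℝ) := by
    by_contra hcon
    rw [not_le] at hcon
    have hpos : (0 : ℝ) ≤ A' + C * √(A' : ℝ) := by positivity
    have h1 : ((A' : ℝ) + C * √(A' : ℝ)) ^ k < (A0 - c') ^ k := pow_lt_pow_left₀ hcon hpos hk.ne'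
    have h2 : ((A0 : ℝ) - c') ^ k ≤ (A0 - c') * (A0 : ℝ) ^ l := by
      rw [hkl, pow_succ']
      refine mul_le_mul_of_nonneg_left ?_ (by linarith)
      exact pow_le_pow_left₀ (by linarith) (by linarith) l
    have h3 : ∑ i, x i ^ k ≤ (k : ℝ) * ((A' : ℝ) + C * √(A' : ℝ)) ^ k := by
      have h := Finset.sum_le_card_nsmul univ (fun i => x i ^ k) (((A' : ℝ) + C * √(A' : ℝ)) ^ k) fun i _ =>
        pow_le_pow_left₀ (hA'R.le.trans (hx2 i).1.le) (hx2 i).2 k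
      rwa [Finset.card_univ, Fintype.card_fin, nsmul_eq_mul] at h
    rw [hx3, hn'R] at h3
    have h4 : (k : ℝ) * ((A' : ℝ) + C * √(A' : ℝ)) ^ k < k * ((A0 - c') * (A0 : ℝ) ^ l) :=
      mul_lt_mul_of_pos_left (h1.trans_le h2) hkR
    have h5 : c' * (A0 : ℝ) ^ l ≤ k * (c' * (A0 : ℝ) ^ l) := le_mul_of_one_le_left (by positivity) hk1
    rw [hpowA] at hrem1
    nlinarith
  have hmM : (m : ℤ) ∣ (M : ℤ) := by
    rw [hM]
    exact ⟨(k : ℤ), by push_cast; ring⟩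
  have hm3 : ∀ i, (m : ℤ) ∣ (a i : ℤ) - y i := fun i => hmM.trans (ha3 i)
  have hsum : (∑ i, (a i : ℝ) ^ k) + ∑ i, x i ^ k = n := by
    rw [hx3, hn'R]
    ring
  have hM' : (0 : ℝ) ≤ M := Nat.cast_nonneg _
  rcases Nat.le_total A0 A' with hle | hle
  · -- `A = A0`
    have hle' : (A0 : ℝ) ≤ A' := by exact_mod_cast hle
    have hq : 1 ≤ √(A0 : ℝ) := by
      rw [Real.one_le_sqrt]
      exact hA01
    have hq2 : √(A' : ℝ) ≤ √(A0 : ℝ) * (1 + S) := by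
      rw [Real.sqrt_le_left (by positivity), mul_pow, Real.sq_sqrt hA0R.le]
      calc (A' : ℝ) ≤ A0 + S := hcmp1
        _ ≤ A0 * (1 + S) := by nlinarith
        _ ≤ A0 * (1 + S) ^ 2 := by
            refine mul_le_mul_of_nonneg_left ?_ hA0R.le
            nlinarith
    refine ⟨A0, a, x, f, hA0pos, fun i => ⟨ha1 i, ?_, hm3 i⟩, hx1, fun i => ⟨lt_of_le_of_lt hle' (hx2 i).1, ?_⟩, hsum,
      hf1, hf2⟩
    · have h1 := haR2 i
      have h2 : (M : ℝ) ≤ M * √(A0 : ℝ) := le_mul_of_one_le_right hM' hq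
      have h3 : 0 ≤ (S + C * (1 + S) + c' + C) * √(A0 : ℝ) := by positivity
      nlinarith
    · have h1 := (hx2 i).2
      have h2 : C * √(A' : ℝ) ≤ C * (√(A0 : ℝ) * (1 + S)) := mul_le_mul_of_nonneg_left hq2 hC.le
      have h3 : S ≤ S * √(A0 : ℝ) := le_mul_of_one_le_right hS0 hq
      have h4 : 0 ≤ (M + c' + C) * √(A0 : ℝ) := by positivity
      nlinarith
  · -- `A = A'`
    have hle' : (A' : ℝ) ≤ A0 := by exact_mod_cast hle
    have hq : 1 ≤ √(A' : ℝ) := by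
      rw [Real.one_le_sqrt]
      exact hA'1
    refine ⟨A', a, x, f, hA', fun i => ⟨hle.trans (ha1 i), ?_, hm3 i⟩, hx1, fun i => ⟨(hx2 i).1, ?_⟩, hsum, hf1, hf2⟩
    · have h1 := haR2 i
      have h2 : (M : ℝ) ≤ M * √(A' : ℝ) := le_mul_of_one_le_right hM' hq
      have h3 : c' ≤ c' * √(A' : ℝ) := le_mul_of_one_le_right hc'0 hq
      have h4 : 0 ≤ (S + C * (1 + S)) * √(A' : ℝ) := by positivity
      nlinarith
    · have h1 := (hx2 i).2
      have h4 : 0 ≤ (S + C * (1 + S) + M + c') * √(A' : ℝ) := by positivity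
      nlinarith

end Pool.Agent.H70.WS
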