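import Mathlib

/-!
# Newton's identities as recursions
-/

set_option autoImplicit false

namespace Pool.Agent.H70.WS

open Finset

section
variable {R S : Type} [CommRing R] [CommRing S]

/-- The power sums as functions of the elementary symmetric functions `e 1`, `e 2`, … (Newton). -/
def nw (e : ℕ → R) : ℕ → R
  | 0 => 0
  | (j + 1) => (-1) ^ j * (j + 1) * e (j + 1) - ∑ a : Fin j, (-1) ^ (a.val + 1) * e (a.val + 1) * nw e (j - a.val)

/-- the part of `nw e (j + 1)` which depends on `e 1, …, e j` only -/
def gw (e : ℕ → R) (j : ℕ) : R := - ∑ a : Fin j, (-1) ^ (a.val + 1) * e (a.val + 1) * nw e (j - a.val)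

lemma nw_succ (e : ℕ → R) (j : ℕ) : nw e (j + 1) = (-1) ^ j * (j + 1) * e (j + 1) + gw e j := by
  rw [nw, gw, sub_eq_add_neg]

lemma nw_congr (e e' : ℕ → R) (j : ℕ) (h : ∀ i, 1 ≤ i → i ≤ j → e i = e' i) : nw e j = nw e' j := by
  induction j using Nat.strong_induction_on with
  | _ j ih =>
    rcases j with _ | j
    · rw [nw, nw]
    · rw [nw, nw, h (j + 1) (by omega) le_rfl]
      congr 1
      refine Finset.sum_congr rfl fun a _ => ?_
      have ha := a.isLt
      rw [h (a.val + 1) (by omega) (by omega), ih (j - a.val) (by omega) fun i h1 h2 => h i h1 (by omega)]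

lemma gw_congr (e e' : ℕ → R) (j : ℕ) (h : ∀ i, 1 ≤ i → i ≤ j → e i = e' i) : gw e j = gw e' j := by
  unfold gw
  congr 1
  refine Finset.sum_congr rfl fun a _ => ?_
  have ha := a.isLt
  rw [h (a.val + 1) (by omega) (by omega), nw_congr e e' (j - a.val) fun i h1 h2 => h i h1 (by omega)]

lemma nw_map (φ : R →+* S) (e : ℕ → R) (j : ℕ) : nw (fun i => φ (e i)) j = φ (nw e j) := by
  induction j using Nat.strong_induction_on with
  | _ j ih =>
    rcases j with _ | j
    · rw [nw, nw, map_zero]
    · rw [nw, nw, map_sub, map_mul, map_mul, map_pow, map_neg, map_one, map_sum, map_add, map_natCast, map_one]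
      congr 1
      refine Finset.sum_congr rfl fun a _ => ?_
      have ha := a.isLt
      rw [ih (j - a.val) (by omega), map_mul, map_mul, map_pow, map_neg, map_one]

lemma gw_map (φ : R →+* S) (e : ℕ → R) (j : ℕ) : gw (fun i => φ (e i)) j = φ (gw e j) := by
  unfold gw
  rw [map_neg, map_sum]
  congr 1
  refine Finset.sum_congr rfl fun a _ => ?_
  rw [nw_map, map_mul, map_mul, map_pow, map_neg, map_one]

end

/-- the elementary symmetric functions of a family -/
def es {R : Type} [CommRing R] {s : ℕ} (z : Fin s → R) (j : ℕ) : R := ((univ : Finset (Fin s)).val.map z).esymm j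

section
variable {R : Type} [CommRing R] {s : ℕ}

lemma es_zero (z : Fin s → R) : es z 0 = 1 := by
  unfold es Multiset.esymm
  simp

lemma nw_es (z : Fin s → R) (j : ℕ) (hj : 0 < j) : nw (es z) j = ∑ i, z i ^ j := by
  induction j using Nat.strong_induction_on with
  | _ j ih =>
    obtain ⟨j, rfl⟩ : ∃ l, j = l + 1 := ⟨j - 1, by omega⟩
    have h := congrArg (MvPolynomial.aeval z) (MvPolynomial.psum_eq_mul_esymm_sub_sum (Fin s) R (j + 1) hj)
    have hes : ∀ i, MvPolynomial.aeval z (MvPolynomial.esymm (Fin s) R i) = es z i := fun i =>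
      MvPolynomial.aeval_esymm_eq_multiset_esymm (Fin s) R i z
    have hps : ∀ i, MvPolynomial.aeval z (MvPolynomial.psum (Fin s) R i) = ∑ l, z l ^ i := by
      intro i
      unfold MvPolynomial.psum
      simp
    rw [hps, map_sub, map_mul, map_mul, map_pow, map_neg, map_one, hes, map_sum, map_natCast] at h
    rw [h, nw]
    have h1 : ((-1 : R) ^ (j + 1 + 1)) = (-1) ^ j := by
      rw [pow_add, pow_add]
      simp
    rw [h1]
    push_cast
    congr 1
    symm
    refine Finset.sum_bij' (fun a _ => if h : a.1 - 1 < j then (⟨a.1 - 1, h⟩ : Fin j) else ⟨0, by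
        have := (Finset.mem_filter.1 ‹_›)
        obtain ⟨h2, h3, h4⟩ := this
        rw [Finset.HasAntidiagonal.mem_antidiagonal] at h2
        omega⟩)
      (fun a _ => (a.val + 1, j - a.val)) ?_ ?_ ?_ ?_ ?_
    · intro a _
      exact Finset.mem_univ _
    · intro a _
      have := a.isLt
      rw [Finset.mem_filter, Finset.HasAntidiagonal.mem_antidiagonal]
      refine ⟨by dsimp only; omega, ?_, ?_⟩
      · dsimp only
        omega
      · dsimp only
        omega
    · intro a ha
      obtain ⟨h2, h3, h4⟩ := Finset.mem_filter.1 ha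
      rw [Finset.HasAntidiagonal.mem_antidiagonal] at h2
      rw [dif_pos (by omega)]
      ext <;> dsimp only <;> omega
    · intro a _
      have := a.isLt
      dsimp only
      rw [dif_pos (by omega)]
      ext
      dsimp only
      omega
    · intro a ha
      obtain ⟨h2, h3, h4⟩ := Finset.mem_filter.1 ha
      rw [Finset.HasAntidiagonal.mem_antidiagonal] at h2
      rw [dif_pos (by omega)]
      have e1 : a.1 - 1 + 1 = a.1 := by omega
      have e2 : j - (a.1 - 1) = a.2 := by omega
      dsimp only
      rw [e1, e2, map_mul, map_mul, map_pow, map_neg, map_one, hes, hps, ih a.2 (by omega) (by omega)]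

end

/-! ### The inverse recursion -/

/-- the elementary symmetric functions from the power sums -/
noncomputable def en (p : ℕ → ℝ) : ℕ → ℝ
  | 0 => 1
  | (j + 1) => (-1) ^ j / (j + 1) * (p (j + 1) + ∑ a : Fin j, (-1) ^ (a.val + 1) * en p (a.val + 1) * p (j - a.val))

lemma en_nw (e : ℕ → ℝ) (h0 : e 0 = 1) (j : ℕ) : en (nw e) j = e j := by
  induction j using Nat.strong_induction_on with
  | _ j ih =>
    rcases j with _ | j
    · rw [en, h0]
    · rw [en, nw]
      have h1 : ∑ a : Fin j, (-1 : ℝ) ^ (a.val + 1) * en (nw e) (a.val + 1) * nw e (j - a.val) =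
          ∑ a : Fin j, (-1 : ℝ) ^ (a.val + 1) * e (a.val + 1) * nw e (j - a.val) :=
        Finset.sum_congr rfl fun a _ => by rw [ih (a.val + 1) (by have := a.isLt; omega)]
      rw [h1, sub_add_cancel]
      have h2 : ((j : ℝ) + 1) ≠ 0 := by positivity
      have h3 : ((-1 : ℝ) ^ j) * (-1) ^ j = 1 := by
        rw [← mul_pow]
        simp
      field_simp
      rw [pow_two, h3]
      ring

lemma en_congr (p p' : ℕ → ℝ) (j : ℕ) (h : ∀ i, 1 ≤ i → i ≤ j → p i = p' i) : en p j = en p' j := by
  induction j using Nat.strong_induction_on with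
  | _ j ih =>
    rcases j with _ | j
    · rw [en, en]
    · rw [en, en, h (j + 1) (by omega) le_rfl]
      congr 2
      refine Finset.sum_congr rfl fun a _ => ?_
      have ha := a.isLt
      rw [h (j - a.val) (by omega) (by omega), ih (a.val + 1) (by omega) fun i h1 h2 => h i h1 (by omega)]

lemma en_continuous (N j : ℕ) (hj : j ≤ N) :
    Continuous fun q : Fin (N + 1) → ℝ => en (fun i => if h : i < N + 1 then q ⟨i, h⟩ else 0) j := by
  induction j using Nat.strong_induction_on with
  | _ j ih =>
    rcases j with _ | j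
    · simp only [en]
      exact continuous_const
    · have hfun : (fun q : Fin (N + 1) → ℝ => en (fun i => if h : i < N + 1 then q ⟨i, h⟩ else 0) (j + 1)) =
          fun q : Fin (N + 1) → ℝ => (-1) ^ j / (j + 1) * ((if h : j + 1 < N + 1 then q ⟨j + 1, h⟩ else 0) +
            ∑ a : Fin j, (-1) ^ (a.val + 1) * en (fun i => if h : i < N + 1 then q ⟨i, h⟩ else 0) (a.val + 1) *
              (if h : j - a.val < N + 1 then q ⟨j - a.val, h⟩ else 0)) := by
        funext q
        rw [en]
      rw [hfun]
      have hc : ∀ i, Continuous fun q : Fin (N + 1) → ℝ => (if h : i < N + 1 then q ⟨i, h⟩ else 0 : ℝ) := by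
        intro i
        by_cases h : i < N + 1
        · simp only [dif_pos h]
          exact continuous_apply _
        · simp only [dif_neg h]
          exact continuous_const
      refine continuous_const.mul ((hc _).add (continuous_finsetSum _ fun a _ => ?_))
      exact (continuous_const.mul (ih (a.val + 1) (by have := a.isLt; omega) (by have := a.isLt; omega))).mul (hc _)

lemma en_close (p0 : ℕ → ℝ) (N : ℕ) (ε : ℝ) (hε : 0 < ε) :
    ∃ ρ : ℝ, 0 < ρ ∧ ∀ p : ℕ → ℝ, (∀ i, 1 ≤ i → i ≤ N → |p i - p0 i| < ρ) → ∀ j ≤ N, |en p j - en p0 j| < ε := by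
  have h1 : ∀ j ∈ range (N + 1), ∃ ρ : ℝ, 0 < ρ ∧ ∀ p : ℕ → ℝ, (∀ i, 1 ≤ i → i ≤ N → |p i - p0 i| < ρ) →
      |en p j - en p0 j| < ε := by
    intro j hj
    rw [Finset.mem_range] at hj
    have hc := en_continuous N j (by omega)
    obtain ⟨ρ, hρ, h⟩ := Metric.continuous_iff.1 hc (fun i => p0 i.val) ε hε
    refine ⟨ρ, hρ, fun p hp => ?_⟩
    have h2 := h (fun i => if i.val = 0 then p0 0 else p i.val) (by
      rw [dist_pi_lt_iff hρ]
      intro i
      have hi := i.isLt
      by_cases h0 : i.val = 0
      · simp only [h0, if_true, dist_self]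
        exact hρ
      · simp only [h0, if_false]
        rw [Real.dist_eq]
        exact hp i.val (by omega) (by omega))
    rw [Real.dist_eq] at h2
    have e1 : en (fun i => if h : i < N + 1 then (fun i : Fin (N + 1) => if i.val = 0 then p0 0 else p i.val) ⟨i, h⟩
        else 0) j = en p j := by
      refine en_congr _ _ j fun i h1 h2 => ?_
      rw [dif_pos (by omega)]
      dsimp only
      rw [if_neg (by omega)]
    have e2 : en (fun i => if h : i < N + 1 then (fun i : Fin (N + 1) => p0 i.val) ⟨i, h⟩ else 0) j = en p0 j := by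
      refine en_congr _ _ j fun i h1 h2 => ?_
      rw [dif_pos (by omega)]
    rw [e1, e2] at h2
    exact h2
  choose! ρ hρ h2 using h1
  have hne : (range (N + 1)).Nonempty := Finset.nonempty_range_iff.2 (Nat.succ_ne_zero N)
  refine ⟨(range (N + 1)).inf' hne ρ, (Finset.lt_inf'_iff hne).2 hρ, fun p hp j hj => ?_⟩
  · have hj' : j ∈ range (N + 1) := Finset.mem_range.2 (by omega)
    exact h2 j hj' p fun i h3 h4 => (hp i h3 h4).trans_le (Finset.inf'_le _ hj')

end Pool.Agent.H70.WS
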