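import Pool.Agent.H70.WS.Choose

/-!
# Polynomials near `(X - 1) (X - 2) ⋯ (X - s)` have `s` real roots
-/

set_option autoImplicit false

namespace Pool.Agent.H70.WS

open Finset Polynomial

section
variable {R S : Type} [CommRing R] [CommRing S]

lemma es_eq {s : ℕ} (z : Fin s → R) (j : ℕ) : es z j = ∑ t ∈ (univ : Finset (Fin s)).powersetCard j, ∏ i ∈ t, z i := by
  unfold es
  exact Finset.esymm_map_val z univ j

lemma es_scale {s : ℕ} (c : R) (z : Fin s → R) (j : ℕ) : es (fun i => c * z i) j = c ^ j * es z j := by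
  rw [es_eq, es_eq, Finset.mul_sum]
  refine Finset.sum_congr rfl fun t ht => ?_
  rw [Finset.prod_mul_distrib, Finset.prod_const, (Finset.mem_powersetCard.1 ht).2]

lemma es_map {s : ℕ} (φ : R →+* S) (z : Fin s → R) (j : ℕ) : es (fun i => φ (z i)) j = φ (es z j) := by
  rw [es_eq, es_eq, map_sum]
  exact Finset.sum_congr rfl fun t _ => (map_prod φ z t).symm

lemma es_large {s : ℕ} (z : Fin s → R) (j : ℕ) (hj : s < j) : es z j = 0 := by
  rw [es_eq, Finset.powersetCard_eq_empty.2 (by simpa using hj), Finset.sum_empty]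

lemma nw_scale (c : R) (e : ℕ → R) (j : ℕ) : nw (fun i => c ^ i * e i) j = c ^ j * nw e j := by
  induction j using Nat.strong_induction_on with
  | _ j ih =>
    rcases j with _ | j
    · rw [nw, nw, mul_zero]
    · rw [nw, nw, mul_sub, Finset.mul_sum]
      congr 1
      · ring
      · refine Finset.sum_congr rfl fun a _ => ?_
        have ha := a.isLt
        rw [ih (j - a.val) (by omega)]
        have : c ^ (j + 1) = c ^ (a.val + 1) * c ^ (j - a.val) := by
          rw [← pow_add]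
          congr 1
          omega
        rw [this]
        ring

/-- `X ^ s - e 1 X ^ (s - 1) + e 2 X ^ (s - 2) - ⋯` -/
noncomputable def gp (s : ℕ) (e : ℕ → R) : R[X] := ∑ j ∈ range (s + 1), C ((-1) ^ j * e j) * X ^ (s - j)

lemma gp_es {s : ℕ} (z : Fin s → R) : gp s (es z) = ∏ i, (X - C (z i)) := by
  have h := Multiset.prod_X_sub_X_eq_sum_esymm ((univ : Finset (Fin s)).val.map z)
  rw [Multiset.map_map, Multiset.card_map] at h
  have hc : Multiset.card (univ : Finset (Fin s)).val = s := by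
    rw [Finset.card_val, Finset.card_univ, Fintype.card_fin]
  rw [hc] at h
  have h2 : ∏ i, (X - C (z i)) = (Multiset.map ((fun t => X - C t) ∘ z) (univ : Finset (Fin s)).val).prod := rfl
  rw [h2, h]
  unfold gp es
  refine Finset.sum_congr rfl fun j _ => ?_
  rw [C_mul, C_pow, C_neg, C_1, mul_assoc]

lemma gp_congr (s : ℕ) (e e' : ℕ → R) (h : ∀ j ≤ s, e j = e' j) : gp s e = gp s e' := by
  unfold gp
  refine Finset.sum_congr rfl fun j hj => ?_
  rw [Finset.mem_range] at hj
  rw [h j (by omega)]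

lemma gp_map (φ : R →+* S) (s : ℕ) (e : ℕ → R) : (gp s e).map φ = gp s (fun j => φ (e j)) := by
  unfold gp
  rw [Polynomial.map_sum]
  refine Finset.sum_congr rfl fun j _ => ?_
  rw [Polynomial.map_mul, Polynomial.map_pow, map_X, map_C, map_mul, map_pow, map_neg, map_one]

lemma gp_coeff (s : ℕ) (e : ℕ → R) (j : ℕ) (hj : j ≤ s) : (gp s e).coeff (s - j) = (-1) ^ j * e j := by
  unfold gp
  rw [finsetSum_coeff, Finset.sum_eq_single j]
  · rw [coeff_C_mul_X_pow, if_pos rfl]
  · intro b hb hne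
    rw [Finset.mem_range] at hb
    rw [coeff_C_mul_X_pow, if_neg (by omega)]
  · intro h
    exact absurd (Finset.mem_range.2 (by omega)) h

lemma gp_natDegree (s : ℕ) (e : ℕ → R) : (gp s e).natDegree ≤ s := by
  unfold gp
  refine natDegree_sum_le_of_forall_le _ _ fun j _ => ?_
  exact (natDegree_C_mul_X_pow_le _ _).trans (Nat.sub_le _ _)

lemma gp_monic (s : ℕ) (e : ℕ → R) (h0 : e 0 = 1) : (gp s e).Monic := by
  refine monic_of_natDegree_le_of_coeff_eq_one s (gp_natDegree s e) ?_
  have := gp_coeff s e 0 (Nat.zero_le _)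
  rwa [Nat.sub_zero, pow_zero, one_mul, h0] at this

end

/-- `1, 2, …, s` -/
def pt (s : ℕ) : Fin s → ℝ := fun i => (i.val : ℝ) + 1

lemma sign_at (s l : ℕ) (hl : l ≤ s) :
    (1 / 2 : ℝ) ^ s ≤ (-1) ^ (s - l) * (∏ i, (X - C (pt s i)) : ℝ[X]).eval ((l : ℝ) + 1 / 2) := by
  rw [eval_prod]
  have h1 : ((-1 : ℝ) ^ (s - l)) = ∏ i : Fin s, (if i.val < l then 1 else -1 : ℝ) := by
    rw [Finset.prod_ite, Finset.prod_const_one, one_mul, Finset.prod_const]
    congr 1
    have h2 : (univ.filter fun i : Fin s => ¬ i.val < l).card + (univ.filter fun i : Fin s => i.val < l).card = s := by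
      rw [add_comm, Finset.card_filter_add_card_filter_not, Finset.card_univ, Fintype.card_fin]
    have h3 : (univ.filter fun i : Fin s => i.val < l).card = l := by
      have : (univ.filter fun i : Fin s => i.val < l).card = (range l).card := by
        refine Finset.card_bij (fun i _ => i.val) ?_ ?_ ?_
        · intro i hi
          exact Finset.mem_range.2 (Finset.mem_filter.1 hi).2
        · intro i _ i' _ h
          exact Fin.ext h
        · intro b hb
          rw [Finset.mem_range] at hb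
          exact ⟨⟨b, by omega⟩, Finset.mem_filter.2 ⟨Finset.mem_univ _, hb⟩, rfl⟩
      rw [this, Finset.card_range]
    omega
  rw [h1, ← Finset.prod_mul_distrib]
  have h4 : (1 / 2 : ℝ) ^ s = ∏ _i : Fin s, (1 / 2 : ℝ) := by
    rw [Finset.prod_const, Finset.card_univ, Fintype.card_fin]
  rw [h4]
  refine Finset.prod_le_prod (fun _ _ => by norm_num) fun i _ => ?_
  rw [eval_sub, eval_X, eval_C]
  unfold pt
  split_ifs with h
  · have : ((i.val : ℝ) + 1) ≤ l := by exact_mod_cast h
    linarith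
  · have : (l : ℝ) ≤ i.val := by exact_mod_cast not_lt.1 h
    linarith

lemma gp_eval_sub (s : ℕ) (e e' : ℕ → ℝ) (h0 : e 0 = e' 0) (ε : ℝ) (h : ∀ j, 1 ≤ j → j ≤ s → |e j - e' j| < ε)
    (hs : 0 < s) (x : ℝ) (hx0 : 0 ≤ x) (hx : x ≤ s + 1) :
    |(gp s e).eval x - (gp s e').eval x| ≤ s * (ε * ((s : ℝ) + 1) ^ s) := by
  unfold gp
  rw [eval_finsetSum, eval_finsetSum, ← Finset.sum_sub_distrib, Finset.sum_range_succ']
  simp only [eval_mul, eval_C, eval_pow, eval_X, pow_zero, one_mul, h0, sub_self, add_zero]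
  have hε : 0 ≤ ε := by
    have := h 1 le_rfl (by omega)
    exact (abs_nonneg _).trans this.le
  refine (Finset.abs_sum_le_sum_abs _ _).trans ?_
  have h1 : ∀ j ∈ range s, |(-1) ^ (j + 1) * e (j + 1) * x ^ (s - (j + 1)) -
      (-1) ^ (j + 1) * e' (j + 1) * x ^ (s - (j + 1))| ≤ ε * ((s : ℝ) + 1) ^ s := by
    intro j hj
    rw [Finset.mem_range] at hj
    rw [← sub_mul, ← mul_sub, abs_mul, abs_mul, abs_pow, abs_neg, abs_one, one_pow, one_mul,
      abs_of_nonneg (pow_nonneg hx0 _)]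
    refine mul_le_mul (h (j + 1) (by omega) (by omega)).le ?_ (pow_nonneg hx0 _) hε
    calc x ^ (s - (j + 1)) ≤ ((s : ℝ) + 1) ^ (s - (j + 1)) := pow_le_pow_left₀ hx0 hx _
      _ ≤ ((s : ℝ) + 1) ^ s := pow_le_pow_right₀ (by linarith [(Nat.cast_nonneg s : (0 : ℝ) ≤ s)]) (Nat.sub_le _ _)
  refine (Finset.sum_le_sum h1).trans ?_
  rw [Finset.sum_const, Finset.card_range, nsmul_eq_mul]

/-- Real roots by continuity. -/
lemma roots_near (s : ℕ) (hs : 0 < s) : ∃ ε : ℝ, 0 < ε ∧ ∀ e : ℕ → ℝ, e 0 = 1 →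
    (∀ j, 1 ≤ j → j ≤ s → |e j - es (pt s) j| < ε) →
    ∃ r : Fin s → ℝ, StrictMono r ∧ (∀ i, 0 < r i ∧ r i < s + 1) ∧ gp s e = ∏ i, (X - C (r i)) := by
  have hs1 : (0 : ℝ) < (s : ℝ) + 1 := by positivity
  refine ⟨(1 / 2) ^ s / ((s : ℝ) + 1) ^ (s + 1), by positivity, fun e he0 h => ?_⟩
  -- signs
  have hsign : ∀ l : ℕ, l ≤ s → 0 < (-1) ^ (s - l) * (gp s e).eval ((l : ℝ) + 1 / 2) := by
    intro l hl
    have hl' : (l : ℝ) ≤ s := by exact_mod_cast hl
    have h1 := sign_at s l hl
    rw [← gp_es] at h1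
    have h2 := gp_eval_sub s e (es (pt s)) (by rw [he0, es_zero]) _ h hs ((l : ℝ) + 1 / 2) (by positivity)
      (by linarith)
    have h3 : (s : ℝ) * ((1 / 2) ^ s / ((s : ℝ) + 1) ^ (s + 1) * ((s : ℝ) + 1) ^ s) < (1 / 2) ^ s := by
      have : (s : ℝ) * ((1 / 2) ^ s / ((s : ℝ) + 1) ^ (s + 1) * ((s : ℝ) + 1) ^ s) =
          (1 / 2) ^ s * (s / (s + 1)) := by
        rw [pow_succ]
        field_simp
      rw [this]
      have h4 : (s : ℝ) / (s + 1) < 1 := by
        rw [div_lt_one hs1]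
        linarith
      have h5 : (0 : ℝ) < (1 / 2) ^ s := by positivity
      nlinarith
    have h6 : |(-1 : ℝ) ^ (s - l) * ((gp s e).eval ((l : ℝ) + 1 / 2) - (gp s (es (pt s))).eval ((l : ℝ) + 1 / 2))| <
        (1 / 2) ^ s := by
      rw [abs_mul, abs_pow, abs_neg, abs_one, one_pow, one_mul]
      exact h2.trans_lt h3
    rw [mul_sub] at h6
    have := (abs_lt.1 h6).1
    linarith
  -- roots
  have hroot : ∀ l : Fin s, ∃ r : ℝ, (l.val : ℝ) + 1 / 2 ≤ r ∧ r < (l.val : ℝ) + 1 + 1 / 2 ∧ (gp s e).eval r = 0 := by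
    intro l
    have hl := l.isLt
    have h1 := hsign l.val hl.le
    have h2 := hsign (l.val + 1) hl
    have hc : ContinuousOn (fun x => (gp s e).eval x) (Set.uIcc ((l.val : ℝ) + 1 / 2) (((l.val + 1 : ℕ) : ℝ) + 1 / 2)) :=
      (gp s e).continuous.continuousOn
    have hz : (0 : ℝ) ∈ Set.uIcc ((gp s e).eval ((l.val : ℝ) + 1 / 2))
        ((gp s e).eval (((l.val + 1 : ℕ) : ℝ) + 1 / 2)) := by
      have e1 : s - l.val = s - (l.val + 1) + 1 := by omega
      rw [e1, pow_succ] at h1
      rw [Set.mem_uIcc]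
      rcases neg_one_pow_eq_or ℝ (s - (l.val + 1)) with h3 | h3
      · rw [h3] at h1 h2
        left
        constructor <;> linarith
      · rw [h3] at h1 h2
        right
        constructor <;> linarith
    obtain ⟨r, hr, hr0⟩ := intermediate_value_uIcc hc hz
    rw [Set.uIcc_of_le (by push_cast; linarith)] at hr
    refine ⟨r, hr.1, ?_, hr0⟩
    refine lt_of_le_of_ne (by have := hr.2; push_cast at this; linarith) ?_
    intro hcon
    have e2 : r = ((l.val + 1 : ℕ) : ℝ) + 1 / 2 := by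
      rw [hcon]
      push_cast
      ring
    rw [← e2] at h2
    dsimp only at hr0
    rw [hr0, mul_zero] at h2
    exact lt_irrefl _ h2
  choose r h1 h2 h3 using hroot
  have hmono : StrictMono r := by
    intro i j hij
    have : (i.val : ℝ) + 1 ≤ j.val := by exact_mod_cast hij
    linarith [h2 i, h1 j]
  refine ⟨r, hmono, fun i => ⟨?_, ?_⟩, ?_⟩
  · have := h1 i
    have h0 : (0 : ℝ) ≤ i.val := Nat.cast_nonneg _
    linarith
  · have := h2 i
    have h0 : (i.val : ℝ) + 1 ≤ s := by exact_mod_cast i.isLt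
    linarith
  · have hm1 := gp_monic s e he0
    have hm2 : (∏ i, (X - C (r i)) : ℝ[X]).Monic := monic_prod_of_monic _ _ fun i _ => monic_X_sub_C _
    have hd1 : (gp s e).natDegree = s := by
      refine le_antisymm (gp_natDegree s e) ?_
      refine le_natDegree_of_ne_zero ?_
      have := gp_coeff s e 0 (Nat.zero_le _)
      rw [Nat.sub_zero] at this
      rw [this, he0]
      norm_num
    have hd2 : (∏ i, (X - C (r i)) : ℝ[X]).natDegree = s := by
      rw [natDegree_prod_of_monic _ _ fun i _ => monic_X_sub_C _]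
      simp
    refine eq_of_degree_sub_lt_of_eval_finset_eq (univ.image r) ?_ ?_
    · rw [Finset.card_image_of_injective _ hmono.injective, Finset.card_univ, Fintype.card_fin]
      have hdeg : (gp s e).degree = (∏ i, (X - C (r i)) : ℝ[X]).degree := by
        rw [degree_eq_natDegree hm1.ne_zero, degree_eq_natDegree hm2.ne_zero, hd1, hd2]
      have := degree_sub_lt_left hdeg hm1.ne_zero (by rw [hm1.leadingCoeff, hm2.leadingCoeff])
      rwa [degree_eq_natDegree hm1.ne_zero, hd1] at this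
    · intro x hx
      obtain ⟨i, _, rfl⟩ := Finset.mem_image.1 hx
      rw [h3 i, eval_prod]
      symm
      exact Finset.prod_eq_zero (Finset.mem_univ i) (by simp)

end Pool.Agent.H70.WS
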